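import Mathlib
import Pool.Agent.Helper20.Span.Main

/-!
# Largest non-`h`-spanning subsets of cyclic groups: definitions for the complete classification
-/

set_option autoImplicit false

open scoped Pointwise

namespace Pool.Agent.Helper20.FF

open Pool.Agent.Helper82.Kneser Pool.Agent.Helper20.Span

/-- all divisors of `n` are `0` or `1` modulo `h` -/
def Tame (n h : ℕ) : Prop := ∀ e, e ∣ n → e % h = 0 ∨ e % h = 1

section general

variable {G : Type*} [AddCommGroup G] [DecidableEq G] [Fintype G]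

/-- `|X + A| ≥ |X| + |A| + m` whenever `|X| ≥ 2` and `|X + A| ≤ |G| - 2` -/
def Good (m : ℕ) (A : Finset G) : Prop :=
  ∀ X : Finset G, 2 ≤ X.card → (X + A).card + 2 ≤ Fintype.card G →
    X.card + A.card + m ≤ (X + A).card

/-- `|A + P| ≥ |A| + |P| + m` for all proper non-trivial subgroups `P` -/
def NQ (m : ℕ) (A : Finset G) : Prop :=
  ∀ P : Finset G, IsSub P → 2 ≤ P.card → P.card < Fintype.card G →
    A.card + P.card + m ≤ (A + P).card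

end general

/-- arithmetic progression with `k` terms and unit difference -/
def Prog {n : ℕ} (k : ℕ) (A : Finset (ZMod n)) : Prop :=
  ∃ a δ : ZMod n, IsUnit δ ∧ ∀ x, x ∈ A ↔ ∃ i : ℕ, i < k ∧ x = a + i * δ

/-- progression with a hole: `{a, ..., a + (k-2)δ} ∪ {a + kδ}` -/
def Hole {n : ℕ} (k : ℕ) (A : Finset (ZMod n)) : Prop :=
  ∃ a δ : ZMod n, IsUnit δ ∧ ∀ x, x ∈ A ↔ (∃ i : ℕ, i + 2 ≤ k ∧ x = a + i * δ) ∨ x = a + k * δ

/-- progression with a hole modulo `m ∣ n`: the classes `a, ..., a + (k-1)δ`, the class `a + kδ`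
without `u`, and one element `v` of the class `a + (k+1)δ` -/
def HoleMod {n : ℕ} (h : ℕ) (A : Finset (ZMod n)) : Prop :=
  ∃ (m : ℕ) (hm : m ∣ n) (k : ℕ) (a δ : ZMod m) (u v : ZMod n), h * (k + 1) ≤ m ∧ IsUnit δ ∧
    ZMod.castHom hm (ZMod m) u = a + k * δ ∧ ZMod.castHom hm (ZMod m) v = a + (k + 1) * δ ∧
    ∀ x, x ∈ A ↔ (∃ i : ℕ, i < k ∧ ZMod.castHom hm (ZMod m) x = a + i * δ) ∨
      (ZMod.castHom hm (ZMod m) x = a + k * δ ∧ x ≠ u) ∨ x = v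

/-- `{0} ∪ [2,k-1] ∪ {k+1}` -/
def Three₁ {n : ℕ} (k : ℕ) (A : Finset (ZMod n)) : Prop :=
  ∃ a δ : ZMod n, IsUnit δ ∧ ∀ x, x ∈ A ↔ x = a ∨ (∃ i : ℕ, 2 ≤ i ∧ i < k ∧ x = a + i * δ) ∨
    x = a + (k + 1) * δ

/-- `[0,k-3] ∪ {k-1} ∪ {k+1}` -/
def Three₂ {n : ℕ} (k : ℕ) (A : Finset (ZMod n)) : Prop :=
  ∃ a δ : ZMod n, IsUnit δ ∧ ∀ x, x ∈ A ↔ (∃ i : ℕ, i + 3 ≤ k ∧ x = a + i * δ) ∨
    x = a + (k - 1) * δ ∨ x = a + (k + 1) * δ

/-- `{a, a+δ, a+4δ}` -/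
def Four {n : ℕ} (A : Finset (ZMod n)) : Prop :=
  ∃ a δ : ZMod n, IsUnit δ ∧ ∀ x, x ∈ A ↔ x = a ∨ x = a + δ ∨ x = a + 4 * δ

/-- **The sets of the classification**, as subsets of `ZMod n`. -/
inductive Ext (h : ℕ) : (n : ℕ) → Set (ZMod n) → Prop
  /-- the empty set in the trivial group -/
  | empty : Ext h 1 ∅
  /-- progressions with `⌊(n-2)/h⌋ + 1` terms -/
  | prog (n : ℕ) (a δ : ZMod n) : 2 ≤ n → IsUnit δ →
      Ext h n {x | ∃ i : ℕ, i ≤ (n - 2) / h ∧ x = a + i * δ}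
  /-- progressions with a hole, modulo a divisor `m` of `n` with `m ≥ h (k+1)` -/
  | hole (n m k : ℕ) (hm : m ∣ n) (a δ : ZMod m) (u v : ZMod n) : h * (k + 1) ≤ m → IsUnit δ →
      ZMod.castHom hm (ZMod m) u = a + k * δ → ZMod.castHom hm (ZMod m) v = a + (k + 1) * δ →
      Ext h n {x | (∃ i : ℕ, i < k ∧ ZMod.castHom hm (ZMod m) x = a + i * δ) ∨
        (ZMod.castHom hm (ZMod m) x = a + k * δ ∧ x ≠ u) ∨ x = v}
  /-- `h = 3`, `n = 3k+1` -/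
  | three₁ (n k : ℕ) (a δ : ZMod n) : h = 3 → n = 3 * k + 1 → 1 ≤ k → IsUnit δ →
      Ext h n {x | x = a ∨ (∃ i : ℕ, 2 ≤ i ∧ i < k ∧ x = a + i * δ) ∨ x = a + (k + 1) * δ}
  /-- `h = 3`, `n = 3k+1` -/
  | three₂ (n k : ℕ) (a δ : ZMod n) : h = 3 → n = 3 * k + 1 → 1 ≤ k → IsUnit δ →
      Ext h n {x | (∃ i : ℕ, i + 3 ≤ k ∧ x = a + i * δ) ∨ x = a + (k - 1) * δ ∨
        x = a + (k + 1) * δ}
  /-- `h = 4`, `n = 13` -/
  | four (a δ : ZMod 13) : h = 4 → IsUnit δ → Ext h 13 {x | x = a ∨ x = a + δ ∨ x = a + 4 * δ}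
  /-- full preimages -/
  | lift (n d : ℕ) (hd : d ∣ n) (B : Set (ZMod d)) : Ext h d B →
      Ext h n {x | ZMod.castHom hd (ZMod d) x ∈ B}
  /-- the quasi-periodic step: `n = m t`, the classes `g + δ, ..., g + qδ` modulo `m`, and a copy
  `g + m B` of a set `B` in `ZMod t` -/
  | step (n m t q : ℕ) (hmt : m * t = n) (δ : ZMod m) (g : ZMod n) (B : Set (ZMod t)) :
      h * q < m → IsUnit δ → Ext h t B →
      Ext h n {x | (∃ i : ℕ, 1 ≤ i ∧ i ≤ q ∧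
        ZMod.castHom (Dvd.intro t hmt) (ZMod m) (x - g) = i * δ) ∨
        ∃ y ∈ B, x = g + ((m * y.val : ℕ) : ZMod n)}

end Pool.Agent.Helper20.FF
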