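import Mathlib
import Pool.Agent.Helper20.FF.Defs

/-!
# Scaling by units and translations
-/

set_option autoImplicit false

open scoped Pointwise

namespace Pool.Agent.Helper20.FF

open Pool.Agent.Helper82.Kneser Pool.Agent.Helper20.Span

variable {n : ℕ}

/-- the dilate `u A` -/
def sc (u : ZMod n) (A : Finset (ZMod n)) : Finset (ZMod n) := A.image (fun x => u * x)

lemma mem_sc {u v : ZMod n} (huv : u * v = 1) {A : Finset (ZMod n)} {x : ZMod n} :
    x ∈ sc u A ↔ v * x ∈ A := by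
  unfold sc
  rw [Finset.mem_image]
  constructor
  · rintro ⟨y, hy, rfl⟩
    rw [← mul_assoc, mul_comm v u, huv, one_mul]
    exact hy
  · intro h
    exact ⟨v * x, h, by rw [← mul_assoc, huv, one_mul]⟩

lemma sc_inj {u v : ZMod n} (huv : u * v = 1) : Function.Injective (fun x : ZMod n => u * x) := by
  intro x y h
  have h1 : v * (u * x) = v * (u * y) := congrArg (fun z => v * z) h
  rw [← mul_assoc, ← mul_assoc, mul_comm v u, huv, one_mul, one_mul] at h1
  exact h1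

lemma card_sc {u v : ZMod n} (huv : u * v = 1) (A : Finset (ZMod n)) :
    (sc u A).card = A.card := Finset.card_image_of_injective _ (sc_inj huv)

lemma sc_add (u : ZMod n) (A B : Finset (ZMod n)) : sc u (A + B) = sc u A + sc u B := by
  ext x
  unfold sc
  simp only [Finset.mem_image, Finset.mem_add]
  constructor
  · rintro ⟨y, ⟨a, ha, b, hb, rfl⟩, rfl⟩
    exact ⟨u * a, ⟨a, ha, rfl⟩, u * b, ⟨b, hb, rfl⟩, by ring⟩
  · rintro ⟨y, ⟨a, ha, rfl⟩, z, ⟨b, hb, rfl⟩, rfl⟩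
    exact ⟨a + b, ⟨a, ha, b, hb, rfl⟩, by ring⟩

lemma sc_union (u : ZMod n) (A B : Finset (ZMod n)) : sc u (A ∪ B) = sc u A ∪ sc u B :=
  Finset.image_union _ _

lemma sc_tr (u : ZMod n) (A : Finset (ZMod n)) (r : ZMod n) :
    sc u (tr A r) = tr (sc u A) (u * r) := by
  unfold sc tr
  rw [Finset.image_image, Finset.image_image]
  congr 1
  funext x
  simp only [Function.comp_apply]
  ring

lemma sc_sc {u v : ZMod n} (huv : u * v = 1) (A : Finset (ZMod n)) : sc v (sc u A) = A := by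
  ext x
  rw [mem_sc (by rw [mul_comm]; exact huv), mem_sc huv, ← mul_assoc, mul_comm v u, huv, one_mul]

lemma sc_ns (u : ZMod n) (A : Finset (ZMod n)) (j : ℕ) : sc u (ns A j) = ns (sc u A) j := by
  induction j with
  | zero => simp [ns_zero, sc]
  | succ j ih => rw [ns_succ, ns_succ, sc_add, ih]

lemma good_sc [NeZero n] {u v : ZMod n} (huv : u * v = 1) {A : Finset (ZMod n)} {m : ℕ}
    (h : Good m A) : Good m (sc u A) := by
  intro X hX hXA
  have h1 : sc v (X + sc u A) = sc v X + A := by rw [sc_add, sc_sc huv]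
  have hvu : v * u = 1 := by rw [mul_comm]; exact huv
  have h2 : (sc v X + A).card = (X + sc u A).card := by rw [← h1, card_sc hvu]
  have h3 := h (sc v X) (by rw [card_sc hvu]; exact hX) (by rw [h2]; exact hXA)
  rw [card_sc hvu, h2] at h3
  rw [card_sc huv]
  exact h3

lemma comp_sc {u v : ZMod n} (huv : u * v = 1) {A : Finset (ZMod n)}
    (h : ∀ y, y ∈ A ↔ -y ∉ A + A) : ∀ y, y ∈ sc u A ↔ -y ∉ sc u A + sc u A := by
  intro y
  rw [mem_sc huv, ← sc_add, mem_sc huv, h]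
  rw [mul_neg]

lemma ns_univ_sc [NeZero n] {u v : ZMod n} (huv : u * v = 1) {A : Finset (ZMod n)} {j : ℕ}
    (h : ns A j ≠ Finset.univ) : ns (sc u A) j ≠ Finset.univ := by
  intro hcon
  apply h
  rw [← Finset.card_eq_iff_eq_univ] at hcon ⊢
  rw [← hcon, ← sc_ns, card_sc huv]

lemma pair_sc {u v : ZMod n} (huv : u * v = 1) (A : Finset (ZMod n)) (r : ZMod n) :
    (sc u A ∪ tr (sc u A) (u * r)).card = (A ∪ tr A r).card := by
  rw [← sc_tr, ← sc_union, card_sc huv]

/-! ## shapes -/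

lemma prog_sc {u v : ZMod n} (huv : u * v = 1) {A : Finset (ZMod n)} {k : ℕ}
    (h : Prog k (sc u A)) : Prog k A := by
  obtain ⟨a, δ, hδ, hA⟩ := h
  have hv : IsUnit v := IsUnit.of_mul_eq_one u (by rw [mul_comm]; exact huv)
  refine ⟨v * a, v * δ, hv.mul hδ, fun x => ?_⟩
  have h1 : x ∈ A ↔ u * x ∈ sc u A := by
    rw [mem_sc huv, ← mul_assoc, mul_comm v u, huv, one_mul]
  rw [h1, hA]
  have key : ∀ y : ZMod n, u * x = y ↔ x = v * y := by
    intro y
    constructor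
    · rintro rfl; rw [← mul_assoc, mul_comm v u, huv, one_mul]
    · rintro rfl; rw [← mul_assoc, huv, one_mul]
  constructor
  · rintro ⟨i, hi, h2⟩
    exact ⟨i, hi, by rw [(key _).1 h2]; ring⟩
  · rintro ⟨i, hi, h2⟩
    exact ⟨i, hi, by rw [key, h2]; ring⟩

lemma hole_sc {u v : ZMod n} (huv : u * v = 1) {A : Finset (ZMod n)} {k : ℕ}
    (h : Hole k (sc u A)) : Hole k A := by
  obtain ⟨a, δ, hδ, hA⟩ := h
  have hv : IsUnit v := IsUnit.of_mul_eq_one u (by rw [mul_comm]; exact huv)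
  refine ⟨v * a, v * δ, hv.mul hδ, fun x => ?_⟩
  have h1 : x ∈ A ↔ u * x ∈ sc u A := by
    rw [mem_sc huv, ← mul_assoc, mul_comm v u, huv, one_mul]
  rw [h1, hA]
  have key : ∀ y : ZMod n, u * x = y ↔ x = v * y := by
    intro y
    constructor
    · rintro rfl; rw [← mul_assoc, mul_comm v u, huv, one_mul]
    · rintro rfl; rw [← mul_assoc, huv, one_mul]
  constructor
  · rintro (⟨i, hi, h2⟩ | h2)
    · exact Or.inl ⟨i, hi, by rw [(key _).1 h2]; ring⟩
    · exact Or.inr (by rw [(key _).1 h2]; ring)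
  · rintro (⟨i, hi, h2⟩ | h2)
    · exact Or.inl ⟨i, hi, by rw [key, h2]; ring⟩
    · exact Or.inr (by rw [key, h2]; ring)

lemma three₁_sc {u v : ZMod n} (huv : u * v = 1) {A : Finset (ZMod n)} {k : ℕ}
    (h : Three₁ k (sc u A)) : Three₁ k A := by
  obtain ⟨a, δ, hδ, hA⟩ := h
  have hv : IsUnit v := IsUnit.of_mul_eq_one u (by rw [mul_comm]; exact huv)
  refine ⟨v * a, v * δ, hv.mul hδ, fun x => ?_⟩
  have h1 : x ∈ A ↔ u * x ∈ sc u A := by
    rw [mem_sc huv, ← mul_assoc, mul_comm v u, huv, one_mul]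
  rw [h1, hA]
  have key : ∀ y : ZMod n, u * x = y ↔ x = v * y := by
    intro y
    constructor
    · rintro rfl; rw [← mul_assoc, mul_comm v u, huv, one_mul]
    · rintro rfl; rw [← mul_assoc, huv, one_mul]
  constructor
  · rintro (h2 | ⟨i, hi, hi', h2⟩ | h2)
    · exact Or.inl ((key _).1 h2)
    · exact Or.inr (Or.inl ⟨i, hi, hi', by rw [(key _).1 h2]; ring⟩)
    · exact Or.inr (Or.inr (by rw [(key _).1 h2]; ring))
  · rintro (h2 | ⟨i, hi, hi', h2⟩ | h2)
    · exact Or.inl ((key _).2 h2)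
    · exact Or.inr (Or.inl ⟨i, hi, hi', by rw [key, h2]; ring⟩)
    · exact Or.inr (Or.inr (by rw [key, h2]; ring))

lemma three₂_sc {u v : ZMod n} (huv : u * v = 1) {A : Finset (ZMod n)} {k : ℕ}
    (h : Three₂ k (sc u A)) : Three₂ k A := by
  obtain ⟨a, δ, hδ, hA⟩ := h
  have hv : IsUnit v := IsUnit.of_mul_eq_one u (by rw [mul_comm]; exact huv)
  refine ⟨v * a, v * δ, hv.mul hδ, fun x => ?_⟩
  have h1 : x ∈ A ↔ u * x ∈ sc u A := by
    rw [mem_sc huv, ← mul_assoc, mul_comm v u, huv, one_mul]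
  rw [h1, hA]
  have key : ∀ y : ZMod n, u * x = y ↔ x = v * y := by
    intro y
    constructor
    · rintro rfl; rw [← mul_assoc, mul_comm v u, huv, one_mul]
    · rintro rfl; rw [← mul_assoc, huv, one_mul]
  constructor
  · rintro (⟨i, hi, h2⟩ | h2 | h2)
    · exact Or.inl ⟨i, hi, by rw [(key _).1 h2]; ring⟩
    · exact Or.inr (Or.inl (by rw [(key _).1 h2]; ring))
    · exact Or.inr (Or.inr (by rw [(key _).1 h2]; ring))
  · rintro (⟨i, hi, h2⟩ | h2 | h2)
    · exact Or.inl ⟨i, hi, by rw [key, h2]; ring⟩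
    · exact Or.inr (Or.inl (by rw [key, h2]; ring))
    · exact Or.inr (Or.inr (by rw [key, h2]; ring))

lemma four_sc {u v : ZMod n} (huv : u * v = 1) {A : Finset (ZMod n)}
    (h : Four (sc u A)) : Four A := by
  obtain ⟨a, δ, hδ, hA⟩ := h
  have hv : IsUnit v := IsUnit.of_mul_eq_one u (by rw [mul_comm]; exact huv)
  refine ⟨v * a, v * δ, hv.mul hδ, fun x => ?_⟩
  have h1 : x ∈ A ↔ u * x ∈ sc u A := by
    rw [mem_sc huv, ← mul_assoc, mul_comm v u, huv, one_mul]
  rw [h1, hA]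
  have key : ∀ y : ZMod n, u * x = y ↔ x = v * y := by
    intro y
    constructor
    · rintro rfl; rw [← mul_assoc, mul_comm v u, huv, one_mul]
    · rintro rfl; rw [← mul_assoc, huv, one_mul]
  constructor
  · rintro (h2 | h2 | h2)
    · exact Or.inl ((key _).1 h2)
    · exact Or.inr (Or.inl (by rw [(key _).1 h2]; ring))
    · exact Or.inr (Or.inr (by rw [(key _).1 h2]; ring))
  · rintro (h2 | h2 | h2)
    · exact Or.inl ((key _).2 h2)
    · exact Or.inr (Or.inl (by rw [key, h2]; ring))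
    · exact Or.inr (Or.inr (by rw [key, h2]; ring))

/-! ## translations -/

lemma prog_tr {t : ZMod n} {A : Finset (ZMod n)} {k : ℕ} (h : Prog k (tr A t)) : Prog k A := by
  obtain ⟨a, δ, hδ, hA⟩ := h
  refine ⟨a - t, δ, hδ, fun x => ?_⟩
  have h1 : x ∈ A ↔ x + t ∈ tr A t := by rw [mem_tr, add_sub_cancel_right]
  rw [h1, hA]
  constructor
  · rintro ⟨i, hi, h2⟩
    exact ⟨i, hi, by rw [← add_sub_cancel_right x t, h2]; ring⟩
  · rintro ⟨i, hi, h2⟩
    exact ⟨i, hi, by rw [h2]; ring⟩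

lemma hole_tr {t : ZMod n} {A : Finset (ZMod n)} {k : ℕ} (h : Hole k (tr A t)) : Hole k A := by
  obtain ⟨a, δ, hδ, hA⟩ := h
  refine ⟨a - t, δ, hδ, fun x => ?_⟩
  have h1 : x ∈ A ↔ x + t ∈ tr A t := by rw [mem_tr, add_sub_cancel_right]
  rw [h1, hA]
  constructor
  · rintro (⟨i, hi, h2⟩ | h2)
    · exact Or.inl ⟨i, hi, by rw [← add_sub_cancel_right x t, h2]; ring⟩
    · exact Or.inr (by rw [← add_sub_cancel_right x t, h2]; ring)
  · rintro (⟨i, hi, h2⟩ | h2)
    · exact Or.inl ⟨i, hi, by rw [h2]; ring⟩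
    · exact Or.inr (by rw [h2]; ring)

lemma three₁_tr {t : ZMod n} {A : Finset (ZMod n)} {k : ℕ} (h : Three₁ k (tr A t)) :
    Three₁ k A := by
  obtain ⟨a, δ, hδ, hA⟩ := h
  refine ⟨a - t, δ, hδ, fun x => ?_⟩
  have h1 : x ∈ A ↔ x + t ∈ tr A t := by rw [mem_tr, add_sub_cancel_right]
  rw [h1, hA]
  constructor
  · rintro (h2 | ⟨i, hi, hi', h2⟩ | h2)
    · exact Or.inl (by rw [← add_sub_cancel_right x t, h2])
    · exact Or.inr (Or.inl ⟨i, hi, hi', by rw [← add_sub_cancel_right x t, h2]; ring⟩)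
    · exact Or.inr (Or.inr (by rw [← add_sub_cancel_right x t, h2]; ring))
  · rintro (h2 | ⟨i, hi, hi', h2⟩ | h2)
    · exact Or.inl (by rw [h2]; ring)
    · exact Or.inr (Or.inl ⟨i, hi, hi', by rw [h2]; ring⟩)
    · exact Or.inr (Or.inr (by rw [h2]; ring))

lemma three₂_tr {t : ZMod n} {A : Finset (ZMod n)} {k : ℕ} (h : Three₂ k (tr A t)) :
    Three₂ k A := by
  obtain ⟨a, δ, hδ, hA⟩ := h
  refine ⟨a - t, δ, hδ, fun x => ?_⟩
  have h1 : x ∈ A ↔ x + t ∈ tr A t := by rw [mem_tr, add_sub_cancel_right]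
  rw [h1, hA]
  constructor
  · rintro (⟨i, hi, h2⟩ | h2 | h2)
    · exact Or.inl ⟨i, hi, by rw [← add_sub_cancel_right x t, h2]; ring⟩
    · exact Or.inr (Or.inl (by rw [← add_sub_cancel_right x t, h2]; ring))
    · exact Or.inr (Or.inr (by rw [← add_sub_cancel_right x t, h2]; ring))
  · rintro (⟨i, hi, h2⟩ | h2 | h2)
    · exact Or.inl ⟨i, hi, by rw [h2]; ring⟩
    · exact Or.inr (Or.inl (by rw [h2]; ring))
    · exact Or.inr (Or.inr (by rw [h2]; ring))

lemma four_tr {t : ZMod n} {A : Finset (ZMod n)} (h : Four (tr A t)) : Four A := by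
  obtain ⟨a, δ, hδ, hA⟩ := h
  refine ⟨a - t, δ, hδ, fun x => ?_⟩
  have h1 : x ∈ A ↔ x + t ∈ tr A t := by rw [mem_tr, add_sub_cancel_right]
  rw [h1, hA]
  constructor
  · rintro (h2 | h2 | h2)
    · exact Or.inl (by rw [← add_sub_cancel_right x t, h2])
    · exact Or.inr (Or.inl (by rw [← add_sub_cancel_right x t, h2]; ring))
    · exact Or.inr (Or.inr (by rw [← add_sub_cancel_right x t, h2]; ring))
  · rintro (h2 | h2 | h2)
    · exact Or.inl (by rw [h2]; ring)
    · exact Or.inr (Or.inl (by rw [h2]; ring))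
    · exact Or.inr (Or.inr (by rw [h2]; ring))

lemma tr_add_tr (A B : Finset (ZMod n)) (s t : ZMod n) : tr A s + tr B t = tr (A + B) (s + t) := by
  ext x
  rw [mem_tr, Finset.mem_add, Finset.mem_add]
  constructor
  · rintro ⟨a, ha, b, hb, rfl⟩
    rw [mem_tr] at ha hb
    exact ⟨a - s, ha, b - t, hb, by ring⟩
  · rintro ⟨a, ha, b, hb, h⟩
    refine ⟨a + s, by rw [mem_tr]; simpa using ha, b + t, by rw [mem_tr]; simpa using hb, ?_⟩
    rw [← sub_add_cancel x (s + t), ← h]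
    ring

lemma good_tr [NeZero n] {A : Finset (ZMod n)} {m : ℕ} (h : Good m A) (t : ZMod n) :
    Good m (tr A t) := by
  intro X hX hXA
  have h1 : X + tr A t = tr (X + A) t := by
    have := tr_add_tr X A 0 t
    rwa [tr_zero, zero_add] at this
  rw [h1, card_tr] at hXA ⊢
  rw [card_tr]
  exact h X hX hXA

lemma tr_union (A B : Finset (ZMod n)) (t : ZMod n) : tr (A ∪ B) t = tr A t ∪ tr B t := by
  ext x
  simp only [mem_tr, Finset.mem_union]

lemma tr_tr (A : Finset (ZMod n)) (s t : ZMod n) : tr (tr A s) t = tr A (s + t) := by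
  ext x
  simp only [mem_tr]
  rw [show x - t - s = x - (s + t) by ring]

lemma pair_tr (A : Finset (ZMod n)) (r t : ZMod n) :
    (tr A t ∪ tr (tr A t) r).card = (A ∪ tr A r).card := by
  have h1 : tr A t ∪ tr (tr A t) r = tr (A ∪ tr A r) t := by
    rw [tr_union, tr_tr, tr_tr, add_comm]
  rw [h1, card_tr]

end Pool.Agent.Helper20.FF
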