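import Mathlib
import Pool.Agent.Helper20.FF.Scale

/-!
# Arithmetic of `v₁` and small lemmas for the assembly
-/

set_option autoImplicit false

open scoped Pointwise

namespace Pool.Agent.Helper20.FF

open Pool.Agent.Helper82.Kneser Pool.Agent.Helper20.Span

lemma tame_odd {n h : ℕ} (hh : 3 ≤ h) (ht : Tame n h) : Odd n := by
  rcases Nat.even_or_odd n with he | ho
  · exfalso
    have h1 := ht 2 (even_iff_two_dvd.1 he)
    rw [Nat.mod_eq_of_lt (by omega)] at h1
    omega
  · exact ho

lemma tame_dvd {n d h : ℕ} (ht : Tame n h) (hd : d ∣ n) : Tame d h := fun e he =>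
  ht e (he.trans hd)

lemma tame_decomp {n h : ℕ} (ht : Tame n h) : ∃ k ε, n = h * k + ε ∧ ε ≤ 1 := by
  refine ⟨n / h, n % h, (Nat.div_add_mod n h).symm, ?_⟩
  rcases ht n dvd_rfl with h1 | h1 <;> omega

lemma div_eq_pred {h k ε : ℕ} (hh : 3 ≤ h) (hε : ε ≤ 1) (hk : 1 ≤ k) :
    (h * k + ε - 2) / h + 1 = k := by
  obtain ⟨j, rfl⟩ : ∃ j, k = j + 1 := ⟨k - 1, by omega⟩
  have h1 : h * (j + 1) + ε - 2 = (h + ε - 2) + h * j := by
    rw [mul_add, mul_one]; omega
  rw [h1, Nat.add_mul_div_left _ _ (by omega), Nat.div_eq_of_lt (by omega)]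
  omega

/-- the value of `v₁` in the tame case -/
lemma v1_tame {n h k ε : ℕ} (hh : 3 ≤ h) (ht : Tame n h) (hn0 : 0 < n) (hn : n = h * k + ε)
    (hε : ε ≤ 1) : v1 n h = k := by
  apply le_antisymm
  · unfold v1
    apply Finset.sup_le
    intro d hd
    have hdn : d ∣ n := (Nat.mem_divisors.1 hd).1
    split_ifs with hd1
    · exact Nat.zero_le _
    · obtain ⟨t, ht'⟩ := hdn
      have hdpos : 0 < d := Nat.pos_of_dvd_of_pos ⟨t, ht'⟩ hn0
      have hnd : n / d = t := by rw [ht']; exact Nat.mul_div_cancel_left t hdpos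
      have htpos : 0 < t := by
        rcases Nat.eq_zero_or_pos t with h0 | h0
        · rw [h0, mul_zero] at ht'; omega
        · exact h0
      rw [hnd]
      have hdm := Nat.div_add_mod d h
      set j := d / h with hj
      have hj1 : 1 ≤ j := by
        rcases Nat.eq_zero_or_pos j with h0 | h0
        · exfalso
          rw [h0, mul_zero, zero_add] at hdm
          rcases ht d ⟨t, ht'⟩ with h1 | h1 <;> omega
        · exact h0
      rcases ht d ⟨t, ht'⟩ with h1 | h1
      · rw [h1] at hdm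
        rw [← hdm, div_eq_pred hh (by omega) hj1]
        have h2 : h * (j * t) = h * k + ε := by
          rw [← hn, ht', ← hdm]; ring
        have h3 : h * (j * t) ≤ h * k + 1 := by omega
        by_contra hcon
        push Not at hcon
        have h4 : h * (k + 1) ≤ h * (j * t) := Nat.mul_le_mul_left _ hcon
        rw [mul_add, mul_one] at h4
        omega
      · rw [h1] at hdm
        rw [← hdm, div_eq_pred hh le_rfl hj1]
        have h2 : h * (j * t) + t = h * k + ε := by
          rw [← hn, ht', ← hdm]; ring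
        have h3 : h * (j * t) ≤ h * k := by omega
        exact Nat.le_of_mul_le_mul_left h3 (by omega)
  · rcases Nat.eq_zero_or_pos k with h0 | h0
    · rw [h0]; exact Nat.zero_le _
    · have hn1 : n ≠ 1 := by
        have : h * 1 ≤ h * k := Nat.mul_le_mul_left _ h0
        omega
      have h1 := le_v1 (h := h) hn0.ne' (dvd_refl n) hn1
      rw [Nat.div_self hn0, mul_one] at h1
      have h2 := div_eq_pred hh hε h0
      rw [← hn] at h2
      omega

/-- `v₁` grows along multiples -/
lemma v1_mul_le {n d h : ℕ} (hn0 : 0 < n) (hd : d ∣ n) : v1 d h * (n / d) ≤ v1 n h := by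
  obtain ⟨t, rfl⟩ := hd
  have hdpos : 0 < d := Nat.pos_of_mul_pos_right hn0
  rw [Nat.mul_div_cancel_left t hdpos]
  obtain ⟨e, he, hev⟩ := Finset.exists_mem_eq_sup d.divisors ⟨1, by simp; omega⟩
    (fun d' => if d' = 1 then 0 else ((d' - 2) / h + 1) * (d / d'))
  have hv : v1 d h = if e = 1 then 0 else ((e - 2) / h + 1) * (d / e) := hev
  rw [hv]
  split_ifs with h1
  · simp
  · obtain ⟨s, rfl⟩ := (Nat.mem_divisors.1 he).1
    have hepos : 0 < e := Nat.pos_of_mul_pos_right hdpos
    have h2 := le_v1 (h := h) hn0.ne' (show e ∣ e * s * t from ⟨s * t, by ring⟩) h1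
    rw [Nat.mul_div_cancel_left s hepos]
    rw [mul_assoc e s t, Nat.mul_div_cancel_left (s * t) hepos] at h2
    calc ((e - 2) / h + 1) * s * t = ((e - 2) / h + 1) * (s * t) := by ring
      _ ≤ v1 (e * s * t) h := by rw [mul_assoc e s t]; exact h2

/-- the order of a subgroup divides the size of a periodic set -/
lemma sub_dvd_card (n : ℕ) [NeZero n] {H : Finset (ZMod n)} (hH : IsSub H)
    (A : Finset (ZMod n)) : H.card ∣ (A + H).card := by
  classical
  obtain ⟨d, hdn, hHd, hker⟩ := sub_eq_ker n hH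
  have hnpos : 0 < n := NeZero.pos n
  have hdpos : 0 < d := Nat.pos_of_dvd_of_pos hdn hnpos
  have : NeZero d := ⟨hdpos.ne'⟩
  set f : ZMod n →+ ZMod d := (ZMod.castHom hdn (ZMod d)).toAddMonoidHom with hf
  have hfs : Function.Surjective f := ZMod.castHom_surjective hdn
  have hfk : ∀ x, x ∈ H ↔ f x = 0 := hker
  have hpre : A + H = pre f (A.image f) := by
    ext x
    rw [mem_pre, Finset.mem_image, Finset.mem_add]
    constructor
    · rintro ⟨a, ha, k, hk, rfl⟩
      exact ⟨a, ha, by rw [map_add, (hfk k).1 hk, add_zero]⟩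
    · rintro ⟨a, ha, hax⟩
      refine ⟨a, ha, x - a, ?_, by abel⟩
      rw [hfk, map_sub, hax, sub_self]
  have h1 := card_pre hfs (A.image f)
  rw [← hpre, ZMod.card, ZMod.card] at h1
  refine ⟨(A.image f).card, ?_⟩
  have h2 : (A + H).card * d = (H.card * (A.image f).card) * d := by
    rw [h1]
    calc (A.image f).card * n = (A.image f).card * (H.card * d) := by rw [hHd]
      _ = (H.card * (A.image f).card) * d := by ring
  exact Nat.eq_of_mul_eq_mul_right hdpos h2

lemma sub_card_dvd (n : ℕ) [NeZero n] {H : Finset (ZMod n)} (hH : IsSub H) : H.card ∣ n := by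
  obtain ⟨d, hdn, hHd, hker⟩ := sub_eq_ker n hH
  exact ⟨d, hHd.symm⟩

/-- an element generating `ZMod n` is a unit -/
lemma unit_of_gen {n : ℕ} {x : ZMod n} (hgen : ∀ y : ZMod n, y ∈ AddSubgroup.zmultiples x) :
    IsUnit x := by
  obtain ⟨k, hk⟩ := AddSubgroup.mem_zmultiples_iff.1 (hgen 1)
  rw [zsmul_eq_mul] at hk
  exact IsUnit.of_mul_eq_one (k : ZMod n) (by rw [mul_comm]; exact hk)

/-- `|iA| + |jA| ≤ n` if `(i+j)A` is not everything -/
lemma ns_card_add {n : ℕ} [NeZero n] {A : Finset (ZMod n)} {i j : ℕ}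
    (h : ns A (i + j) ≠ Finset.univ) : (ns A i).card + (ns A j).card ≤ n := by
  classical
  obtain ⟨x, hx⟩ : ∃ x, x ∉ ns A (i + j) := by
    by_contra hcon
    push Not at hcon
    exact h (Finset.eq_univ_iff_forall.2 hcon)
  have h1 : Disjoint (ns A i) ((ns A j).image (fun y => x - y)) := by
    rw [Finset.disjoint_left]
    intro z hz hz'
    obtain ⟨y, hy, hyz⟩ := Finset.mem_image.1 hz'
    apply hx
    rw [ns_add]
    exact Finset.mem_add.2 ⟨z, hz, y, hy, by rw [← hyz]; ring⟩
  have h2 := Finset.card_le_univ (ns A i ∪ (ns A j).image (fun y => x - y))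
  rw [Finset.card_union_of_disjoint h1, Finset.card_image_of_injective _ sub_right_injective,
    ZMod.card] at h2
  exact h2

lemma ns_card_mono {n : ℕ} {A : Finset (ZMod n)} (hA : A.Nonempty) {i j : ℕ} (hij : i ≤ j) :
    (ns A i).card ≤ (ns A j).card := by
  obtain ⟨l, rfl⟩ := Nat.exists_eq_add_of_le hij
  rw [ns_add]
  obtain ⟨b, hb⟩ := ns_nonempty hA l
  have := Finset.card_le_card (tr_subset_add (M := ns A i) hb)
  rw [card_tr, add_comm (ns A l)] at this
  exact this

lemma tr_ns {n : ℕ} (A : Finset (ZMod n)) (t : ZMod n) (j : ℕ) :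
    ns (tr A t) j = tr (ns A j) (j * t) := by
  induction j with
  | zero => simp [ns_zero, tr_zero]
  | succ j ih =>
    rw [ns_succ, ns_succ, ih, tr_add_tr]
    congr 1
    push_cast
    ring

lemma nq_tr {n : ℕ} [NeZero n] {A : Finset (ZMod n)} {m : ℕ} (h : NQ m A) (t : ZMod n) :
    NQ m (tr A t) := by
  intro P hP hP2 hPn
  have h1 : tr A t + P = tr (A + P) t := by
    have := tr_add_tr A P t 0
    rwa [tr_zero, add_zero] at this
  rw [h1, card_tr, card_tr]
  exact h P hP hP2 hPn

end Pool.Agent.Helper20.FF
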