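import Mathlib
import Pool.Agent.Helper20.FF.Defs

/-!
# 2-atoms for `|2A| = 2|A| + m`, `m ≤ 1`
-/

set_option autoImplicit false

open scoped Pointwise

namespace Pool.Agent.Helper20.FF

open Pool.Agent.Helper82.Kneser Pool.Agent.Helper20.Span

section general

variable {G : Type*} [AddCommGroup G] [DecidableEq G] [Fintype G]

omit [Fintype G] in
/-- submodularity of `X ↦ |X + A|` -/
lemma submod (X Y A : Finset G) :
    ((X ∩ Y) + A).card + ((X ∪ Y) + A).card ≤ (X + A).card + (Y + A).card := by
  have h3 : (X ∪ Y) + A = (X + A) ∪ (Y + A) := Finset.union_add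
  have h4 : (X ∩ Y) + A ⊆ (X + A) ∩ (Y + A) := Finset.inter_add_subset
  rw [h3, ← Finset.card_union_add_card_inter (X + A) (Y + A)]
  have h5 := Finset.card_le_card h4
  omega

/-- intersections of fragments -/
lemma frag_inter' {A X Y : Finset G} {m : ℕ} (hgood : Good m A)
    (hX2 : (X + A).card + 2 ≤ Fintype.card G)
    (hXf : (X + A).card = X.card + A.card + m) (hYf : (Y + A).card = Y.card + A.card + m)
    (hI : 2 ≤ (X ∩ Y).card) (hU : (X ∪ Y).card + A.card + m + 1 ≤ Fintype.card G) :
    ((X ∩ Y) + A).card = (X ∩ Y).card + A.card + m := by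
  have h1 := submod X Y A
  have h2 := Finset.card_union_add_card_inter X Y
  have h3 : ((X ∩ Y) + A).card ≤ (X + A).card :=
    Finset.card_le_card (Finset.add_subset_add_right Finset.inter_subset_left)
  have h4 := hgood (X ∩ Y) hI (by omega)
  rcases Nat.lt_or_ge (Fintype.card G) (((X ∪ Y) + A).card + 2) with h5 | h5
  · omega
  · have h6 := hgood (X ∪ Y) (by
      have := Finset.card_le_card (Finset.inter_subset_union (s := X) (t := Y))
      omega) h5
    omega

lemma frag_inter {A X Y : Finset G} {m : ℕ} (hgood : Good m A)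
    (hX : X.card ≤ A.card) (hY : Y.card ≤ A.card)
    (hXf : (X + A).card = X.card + A.card + m) (hYf : (Y + A).card = Y.card + A.card + m)
    (hI : 2 ≤ (X ∩ Y).card) (hn : 3 * A.card + m ≤ Fintype.card G) :
    ((X ∩ Y) + A).card = (X ∩ Y).card + A.card + m := by
  have h1 := Finset.card_union_add_card_inter X Y
  have h2 := Finset.card_le_card (Finset.inter_subset_left (s₁ := X) (s₂ := Y))
  exact frag_inter' hgood (by omega) hXf hYf hI (by omega)

omit [Fintype G] in
lemma card_tr_add (M A : Finset G) (g : G) : (tr M g + A).card = (M + A).card := by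
  rw [tr_add, card_tr]

omit [Fintype G] in
lemma pair_add (x y : G) (A : Finset G) : ({x, y} : Finset G) + A = tr A x ∪ tr A y := by
  ext z
  simp only [Finset.mem_add, Finset.mem_insert, Finset.mem_singleton, Finset.mem_union, mem_tr]
  constructor
  · rintro ⟨a, rfl | rfl, b, hb, rfl⟩
    · left; simpa using hb
    · right; simpa using hb
  · rintro (h | h)
    · exact ⟨x, Or.inl rfl, z - x, h, by abel⟩
    · exact ⟨y, Or.inr rfl, z - y, h, by abel⟩

omit [Fintype G] in
lemma pair_card (x y : G) (A : Finset G) :
    (({x, y} : Finset G) + A).card = (A ∪ tr A (y - x)).card := by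
  rw [pair_add]
  have h4 : A ∪ tr A (y - x) = tr (tr A x ∪ tr A y) (-x) := by
    ext z
    simp only [Finset.mem_union, mem_tr]
    rw [show z - -x - x = z by abel, show z - -x - y = z - (y - x) by abel]
  rw [h4, card_tr]

omit [Fintype G] in
/-- a set with `tr F y = tr F z` is killed by its cardinality times `z - y` -/
lemma card_nsmul_of_tr {F : Finset G} {y z : G} (h : tr F y = tr F z) : F.card • (z - y) = 0 := by
  have h1 : ∑ w ∈ tr F y, w = ∑ w ∈ tr F z, w := by rw [h]
  unfold tr at h1
  rw [Finset.sum_image (fun a _ b _ hab => add_right_cancel hab),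
    Finset.sum_image (fun a _ b _ hab => add_right_cancel hab),
    Finset.sum_add_distrib, Finset.sum_add_distrib, Finset.sum_const, Finset.sum_const] at h1
  have h2 := add_left_cancel h1
  rw [nsmul_sub, h2, sub_self]

omit [Fintype G] in
lemma sidonic_mono {M M' : Finset G} (hM : Sidonic M) (h : M' ⊆ M) : Sidonic M' := by
  intro x hx
  refine le_trans (Finset.card_le_card ?_) (hM x hx)
  intro y hy
  rw [Finset.mem_inter, mem_tr] at hy ⊢
  exact ⟨h hy.1, h hy.2⟩

/-- the key counting: `Z` closed under the Sidonic set `M` -/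
lemma closed_count {Z M : Finset G}
    (hclosed : ∀ g x y, x ∈ M → y ∈ M → x ≠ y → g + x ∈ Z → g + y ∈ Z → tr M g ⊆ Z) {x : G}
    (hx : x ∈ M) :
    ∃ F : Finset G, F.card + (Finset.univ.filter (fun g => tr M g ⊆ Z)).card = Z.card ∧
      F + M.erase x ⊆ (Z + M) \ tr Z x := by
  classical
  set T := Finset.univ.filter (fun g => tr M g ⊆ Z) with hT
  refine ⟨Z.filter (fun w => w - x ∉ T), ?_, ?_⟩
  · have h1 : (Z.filter (fun w => w - x ∈ T)).card = T.card := by
      have h2 : Z.filter (fun w => w - x ∈ T) = tr T x := by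
        ext w
        rw [Finset.mem_filter, mem_tr]
        constructor
        · exact fun h => h.2
        · intro h
          refine ⟨?_, h⟩
          have h3 : tr M (w - x) ⊆ Z := by
            have := h
            rw [hT, Finset.mem_filter] at this
            exact this.2
          apply h3
          rw [mem_tr]
          simpa using hx
      rw [h2, card_tr]
    have h2 := Finset.card_filter_add_card_filter_not (s := Z) (fun w => w - x ∈ T)
    omega
  · intro z hz
    obtain ⟨w, hw, y, hy, rfl⟩ := Finset.mem_add.1 hz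
    rw [Finset.mem_filter] at hw
    rw [Finset.mem_erase] at hy
    rw [Finset.mem_sdiff, mem_tr]
    refine ⟨Finset.add_mem_add hw.1 hy.2, fun hcon => hw.2 ?_⟩
    rw [hT, Finset.mem_filter]
    refine ⟨Finset.mem_univ _, hclosed (w - x) x y hx hy.2 (Ne.symm hy.1) ?_ ?_⟩
    · simpa using hw.1
    · rwa [show w - x + y = w + y - x by abel]

/-- the pair bound -/
lemma pair_bound {Z M : Finset G} {x y : G} (hx : x ∈ M) (hy : y ∈ M) :
    (({x, y} : Finset G) + Z).card + (Finset.univ.filter (fun g => tr M g ⊆ Z)).card
      ≤ 2 * Z.card := by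
  classical
  rw [pair_add]
  have h1 := Finset.card_union_add_card_inter (tr Z x) (tr Z y)
  rw [card_tr, card_tr] at h1
  have h2 : (Finset.univ.filter (fun g => tr M g ⊆ Z)).card ≤ (tr Z x ∩ tr Z y).card := by
    rw [← card_tr _ (x + y)]
    apply Finset.card_le_card
    intro w hw
    rw [mem_tr, Finset.mem_filter] at hw
    rw [Finset.mem_inter, mem_tr, mem_tr]
    constructor
    · apply hw.2
      rw [mem_tr, show w - x - (w - (x + y)) = y by abel]
      exact hy
    · apply hw.2
      rw [mem_tr, show w - y - (w - (x + y)) = x by abel]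
      exact hx
  omega

/-- closed sets: a Sidonic 2-atom has three elements, and its differences are killed -/
lemma closed_contra {A M : Finset G} {m : ℕ} (hm : m ≤ 1) (hsid : Sidonic M) (hM3 : 3 ≤ M.card)
    (hMA : (M + A).card = M.card + A.card + m)
    (hpair : ∀ x ∈ M, ∀ y ∈ M, x ≠ y → A.card + 3 + m ≤ (({x, y} : Finset G) + A).card)
    (hclosed : ∀ g x y, x ∈ M → y ∈ M → x ≠ y → g + x ∈ A → g + y ∈ A → tr M g ⊆ A) :
    ∀ y ∈ M, ∀ z ∈ M, y ≠ z → (3 + m) • (z - y) = 0 := by
  classical
  intro y hy z hz hyz
  -- a third element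
  obtain ⟨x, hx, hxy, hxz⟩ : ∃ x ∈ M, x ≠ y ∧ x ≠ z := by
    by_contra hcon
    push Not at hcon
    have h1 : M ⊆ {y, z} := by
      intro x hx
      rw [Finset.mem_insert, Finset.mem_singleton]
      by_cases h : x = y
      · exact Or.inl h
      · exact Or.inr (hcon x hx h)
    have h2 := Finset.card_le_card h1
    have h3 := Finset.card_le_two (a := y) (b := z)
    omega
  obtain ⟨F, hF, hFE⟩ := closed_count hclosed hx
  have hpb := pair_bound (Z := A) hx hy
  have hp := hpair x hx y hy hxy
  have hF3 : 3 + m ≤ F.card := by omega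
  have hE : ((A + M) \ tr A x).card = M.card + m := by
    rw [Finset.card_sdiff_of_subset (by
      intro w hw
      rw [mem_tr] at hw
      exact Finset.mem_add.2 ⟨w - x, hw, x, hx, by abel⟩), card_tr, add_comm A M, hMA]
    omega
  have hFE' := Finset.card_le_card hFE
  obtain ⟨u, hu, v, hv, w, hw, huv, huw, hvw⟩ := Finset.two_lt_card.1 (by omega : 2 < F.card)
  have h3 := three_translates (sidonic_mono hsid (Finset.erase_subset x M)) hu hv hw huv huw hvw
  rw [Finset.card_erase_of_mem hx] at h3
  have hM : M.card = 3 := by omega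
  have hsub : ∀ w ∈ M.erase x, tr F w = (A + M) \ tr A x := by
    intro w hw
    apply Finset.eq_of_subset_of_card_le
    · intro p hp
      rw [mem_tr] at hp
      exact hFE (Finset.mem_add.2 ⟨p - w, hp, w, hw, by abel⟩)
    · rw [card_tr, hE, hM]; exact hF3
  have hy' := hsub y (Finset.mem_erase.2 ⟨Ne.symm hxy, hy⟩)
  have hz' := hsub z (Finset.mem_erase.2 ⟨Ne.symm hxz, hz⟩)
  have h4 : tr F y = tr F z := by rw [hy', hz']
  have h5 := card_nsmul_of_tr h4
  have h6 : F.card = 3 + m := by
    have := card_tr F y
    rw [hy', hE, hM] at this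
    exact this.symm
  rwa [h6] at h5

/-- **(P1)** the 2-atoms of a set with `|2A| = 2|A| + m`. -/
theorem atom_cases [IsAddCyclic G]
    {A : Finset G} {m : ℕ} (hm : m ≤ 1) (hodd : m = 1 → ∀ x : G, x + x = 0 → x = 0)
    (hgood : Good m A) (h2 : 2 ≤ A.card) (hAA : (A + A).card = 2 * A.card + m)
    (hn : 3 * A.card + m ≤ Fintype.card G) :
    (∃ H : Finset G, IsSub H ∧ 2 ≤ H.card ∧ H.card < Fintype.card G ∧
      (A + H).card = A.card + H.card + m) ∨
    ∃ r : G, r ≠ 0 ∧ (A ∪ tr A r).card = A.card + 2 + m := by
  classical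
  set valid := (Finset.univ : Finset (Finset G)).filter
    (fun Y => 2 ≤ Y.card ∧ Y.card ≤ A.card ∧ (Y + A).card = Y.card + A.card + m) with hvalid
  have hAv : A ∈ valid := by
    rw [hvalid, Finset.mem_filter]
    exact ⟨Finset.mem_univ _, h2, le_rfl, by omega⟩
  obtain ⟨M, hM, hmin⟩ := Finset.exists_min_image valid Finset.card ⟨A, hAv⟩
  rw [hvalid, Finset.mem_filter] at hM
  obtain ⟨-, hM2, hMA, hMf⟩ := hM
  -- closure
  have hcl : ∀ X ∈ valid, ∀ g, 2 ≤ (X ∩ tr M g).card → tr M g ⊆ X := by
    intro X hX g hg
    rw [hvalid, Finset.mem_filter] at hX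
    obtain ⟨-, hX2, hXA, hXf⟩ := hX
    have h3 := frag_inter hgood hXA (by rw [card_tr]; exact hMA) hXf
      (by rw [card_tr_add, card_tr]; exact hMf) hg hn
    have h4 : X ∩ tr M g ∈ valid := by
      rw [hvalid, Finset.mem_filter]
      refine ⟨Finset.mem_univ _, hg, ?_, h3⟩
      exact le_trans (Finset.card_le_card Finset.inter_subset_left) hXA
    have h5 := hmin _ h4
    have h6 : X ∩ tr M g = tr M g :=
      Finset.eq_of_subset_of_card_le Finset.inter_subset_right (by rw [card_tr]; exact h5)
    rw [← h6]
    exact Finset.inter_subset_left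
  have hMv : M ∈ valid := by
    rw [hvalid, Finset.mem_filter]
    exact ⟨Finset.mem_univ _, hM2, hMA, hMf⟩
  have hat : Atomic M := by
    intro x
    rcases Nat.lt_or_ge 1 (M ∩ tr M x).card with h3 | h3
    · left
      exact Finset.eq_of_subset_of_card_le (hcl M hMv x h3) (by rw [card_tr])
    · right; exact h3
  have hMne : M.Nonempty := by rw [← Finset.card_pos]; omega
  rcases atomic_cases hMne hat with hsid | ⟨P, hP, hP2, a, rfl⟩
  swap
  · left
    rw [card_tr] at hMA hMf
    rw [card_tr_add, add_comm P A] at hMf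
    exact ⟨P, hP, hP2, by omega, by omega⟩
  rcases Nat.lt_or_ge M.card 3 with h3 | h3
  · right
    have hMc : M.card = 2 := by omega
    obtain ⟨a, b, hab, rfl⟩ := Finset.card_eq_two.1 hMc
    refine ⟨b - a, sub_ne_zero.2 (Ne.symm hab), ?_⟩
    rw [pair_card] at hMf
    omega
  · exfalso
    have hpair : ∀ x ∈ M, ∀ y ∈ M, x ≠ y → A.card + 3 + m ≤ (({x, y} : Finset G) + A).card := by
      intro x hx y hy hxy
      have h4 : ({x, y} : Finset G) ⊆ M := by
        intro w hw
        rw [Finset.mem_insert, Finset.mem_singleton] at hw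
        rcases hw with rfl | rfl
        · exact hx
        · exact hy
      have h5 : (({x, y} : Finset G) + A).card ≤ (M + A).card :=
        Finset.card_le_card (Finset.add_subset_add_right h4)
      have h6 := Finset.card_pair hxy
      have h7 := hgood {x, y} (by omega) (by omega)
      rcases h7.lt_or_eq with h8 | h8
      · omega
      · exfalso
        have h9 : ({x, y} : Finset G) ∈ valid := by
          rw [hvalid, Finset.mem_filter]
          exact ⟨Finset.mem_univ _, by omega, by omega, h8.symm⟩
        have := hmin _ h9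
        omega
    have hclosed : ∀ g x y, x ∈ M → y ∈ M → x ≠ y → g + x ∈ A → g + y ∈ A → tr M g ⊆ A := by
      intro g x y hx hy hxy hgx hgy
      apply hcl A hAv g
      have h4 : ({g + x, g + y} : Finset G) ⊆ A ∩ tr M g := by
        intro w hw
        rw [Finset.mem_insert, Finset.mem_singleton] at hw
        rw [Finset.mem_inter, mem_tr]
        rcases hw with rfl | rfl
        · exact ⟨hgx, by simpa using hx⟩
        · exact ⟨hgy, by simpa using hy⟩
      have h5 := Finset.card_le_card h4
      rwa [Finset.card_pair (fun h => hxy (add_left_cancel h))] at h5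
    have hkill := closed_contra hm hsid h3 hMf hpair hclosed
    obtain ⟨x, hx, y, hy, z, hz, hxy, hxz, hyz⟩ := Finset.two_lt_card.1 (by omega : 2 < M.card)
    have hu := hkill x hx y hy hxy
    have hv := hkill x hx z hz hxz
    have hu0 : y - x ≠ 0 := sub_ne_zero.2 (Ne.symm hxy)
    have hv0 : z - x ≠ 0 := sub_ne_zero.2 (Ne.symm hxz)
    interval_cases m
    · -- `3 u = 0`
      have h4 : ({0, y - x, z - x} : Finset G) ⊆ Finset.univ.filter (fun a : G => 3 • a = 0) := by
        intro w hw
        rw [Finset.mem_insert, Finset.mem_insert, Finset.mem_singleton] at hw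
        rw [Finset.mem_filter]
        refine ⟨Finset.mem_univ _, ?_⟩
        rcases hw with rfl | rfl | rfl
        · simp
        · exact hu
        · exact hv
      have h5 : (Finset.univ.filter (fun a : G => 3 • a = 0)).card ≤ 3 :=
        IsAddCyclic.card_nsmul_eq_zero_le (by norm_num)
      have huv : y - x ≠ z - x := fun h => hyz (sub_left_injective h)
      have h6 : ({0, y - x, z - x} : Finset G).card = 3 := by
        rw [Finset.card_eq_three]
        exact ⟨0, y - x, z - x, Ne.symm hu0, Ne.symm hv0, huv, rfl⟩
      have h7 := Finset.eq_of_subset_of_card_le h4 (by omega)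
      have h8 : (2 : ℕ) • (y - x) ∈ ({0, y - x, z - x} : Finset G) := by
        rw [h7, Finset.mem_filter]
        refine ⟨Finset.mem_univ _, ?_⟩
        rw [← mul_nsmul', mul_comm, mul_nsmul', hu, nsmul_zero]
      rw [Finset.mem_insert, Finset.mem_insert, Finset.mem_singleton] at h8
      have h9 : (2 : ℕ) • (y - x) = z - x := by
        rcases h8 with h8 | h8 | h8
        · exfalso
          apply hu0
          have : (3 : ℕ) • (y - x) = 2 • (y - x) + (y - x) := by
            rw [show (3 : ℕ) = 2 + 1 by norm_num, add_nsmul, one_nsmul]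
          rw [hu, h8, zero_add] at this
          exact this.symm
        · exfalso
          apply hu0
          rw [two_nsmul] at h8
          simpa using h8
        · exact h8
      have h10 := hsid (y - x) hu0
      have h11 : ({y, z} : Finset G) ⊆ M ∩ tr M (y - x) := by
        intro w hw
        rw [Finset.mem_insert, Finset.mem_singleton] at hw
        rw [Finset.mem_inter, mem_tr]
        rcases hw with rfl | rfl
        · exact ⟨hy, by simpa using hx⟩
        · refine ⟨hz, ?_⟩
          have : w - (y - x) = y := by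
            rw [two_nsmul] at h9
            have h12 : w = x + (y - x + (y - x)) := by rw [h9]; abel
            rw [h12]; abel
          rw [this]; exact hy
      have h12 := Finset.card_le_card h11
      rw [Finset.card_pair hyz] at h12
      omega
    · apply hu0
      have ho := hodd rfl
      apply ho
      apply ho
      have : (3 + 1) • (y - x) = (y - x) + (y - x) + ((y - x) + (y - x)) := by
        rw [show 3 + 1 = 2 + 2 by norm_num, add_nsmul, two_nsmul]
      rw [← this]
      exact hu

end general

end Pool.Agent.Helper20.FF
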