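import Mathlib
import Pool.Agent.Helper20.FF.Atoms

/-!
# 2-atoms in the mixed case: `A = G \ -2A`, some `X` has `|X + A| = |X| + |A|`
-/

set_option autoImplicit false

open scoped Pointwise

namespace Pool.Agent.Helper20.FF

open Pool.Agent.Helper82.Kneser Pool.Agent.Helper20.Span

section general

variable {G : Type*} [AddCommGroup G] [DecidableEq G] [Fintype G]

/-- the dual set `-(G \ (X + A))` -/
def dual (X A : Finset G) : Finset G := (Finset.univ \ (X + A)).image (fun y => -y)

lemma mem_dual {X A : Finset G} {z : G} : z ∈ dual X A ↔ -z ∉ X + A := by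
  unfold dual
  rw [Finset.mem_image]
  constructor
  · rintro ⟨y, hy, rfl⟩
    rw [neg_neg]
    exact (Finset.mem_sdiff.1 hy).2
  · intro h
    exact ⟨-z, Finset.mem_sdiff.2 ⟨Finset.mem_univ _, h⟩, neg_neg z⟩

lemma card_dual (X A : Finset G) : (dual X A).card = Fintype.card G - (X + A).card := by
  unfold dual
  rw [Finset.card_image_of_injective _ neg_injective,
    Finset.card_sdiff_of_subset (Finset.subset_univ _), Finset.card_univ]

lemma dual_add_card (X A : Finset G) : (dual X A + A).card + X.card ≤ Fintype.card G := by
  have h1 : dual X A + A ⊆ Finset.univ \ X.image (fun y => -y) := by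
    intro z hz
    obtain ⟨w, hw, a, ha, rfl⟩ := Finset.mem_add.1 hz
    rw [mem_dual] at hw
    rw [Finset.mem_sdiff, Finset.mem_image]
    refine ⟨Finset.mem_univ _, ?_⟩
    rintro ⟨x, hx, hxw⟩
    apply hw
    exact Finset.mem_add.2 ⟨x, hx, a, ha, by
      have : x = -(w + a) := by rw [← hxw, neg_neg]
      rw [this]; abel⟩
  have h2 := Finset.card_le_card h1
  rw [Finset.card_sdiff_of_subset (Finset.subset_univ _), Finset.card_univ,
    Finset.card_image_of_injective _ neg_injective] at h2
  have h3 := Finset.card_le_univ X
  omega

/-- **(P2)** the mixed case -/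
theorem mixed {A : Finset G} (h3 : ∀ x : G, x + x + x = 0 → x = 0) (hgood : Good 0 A)
    (hNQ : NQ 0 A)
    (hcard : Fintype.card G = 3 * A.card + 1) (hcomp : ∀ y, y ∈ A ↔ -y ∉ A + A)
    (hX : ∃ X : Finset G, 2 ≤ X.card ∧ (X + A).card + 2 ≤ Fintype.card G ∧
      (X + A).card = X.card + A.card) :
    (∃ H : Finset G, IsSub H ∧ 2 ≤ H.card ∧ H.card < Fintype.card G ∧
      (A + H).card = A.card + H.card) ∨
    ∃ r : G, r ≠ 0 ∧ (A ∪ tr A r).card = A.card + 2 := by
  classical
  have hAA : (A + A).card = 2 * A.card + 1 := by
    have h1 : A = dual A A := by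
      ext y
      rw [mem_dual]
      exact hcomp y
    have h2 := card_dual A A
    rw [← h1] at h2
    have h4 := Finset.card_le_univ (A + A)
    omega
  set valid := (Finset.univ : Finset (Finset G)).filter
    (fun Y => 2 ≤ Y.card ∧ (Y + A).card + 2 ≤ Fintype.card G ∧
      (Y + A).card = Y.card + A.card) with hvalid
  obtain ⟨X, hX2, hXG, hXf⟩ := hX
  have hXv : X ∈ valid := by
    rw [hvalid, Finset.mem_filter]
    exact ⟨Finset.mem_univ _, hX2, hXG, hXf⟩
  obtain ⟨M, hM, hmin⟩ := Finset.exists_min_image valid Finset.card ⟨X, hXv⟩
  rw [hvalid, Finset.mem_filter] at hM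
  obtain ⟨-, hM2, hMG, hMf⟩ := hM
  have hMv : M ∈ valid := by
    rw [hvalid, Finset.mem_filter]
    exact ⟨Finset.mem_univ _, hM2, hMG, hMf⟩
  -- the dual of `M`
  set Z := dual M A with hZ
  have hZc : Z.card = 2 * A.card + 1 - M.card := by
    rw [hZ, card_dual]
    omega
  have hMle : M.card + A.card + 2 ≤ 3 * A.card + 1 := by omega
  have hZA := dual_add_card M A
  rw [← hZ] at hZA
  have hZ2 : 2 ≤ Z.card := by omega
  have hZgood := hgood Z hZ2 (by omega)
  have hZv : Z ∈ valid := by
    rw [hvalid, Finset.mem_filter]
    exact ⟨Finset.mem_univ _, hZ2, by omega, by omega⟩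
  have hMZ := hmin Z hZv
  have hMA : M.card ≤ A.card := by omega
  -- closure
  have hcl : ∀ X ∈ valid, ∀ g, 2 ≤ (X ∩ tr M g).card →
      (X ∪ tr M g).card + A.card + 1 ≤ Fintype.card G → tr M g ⊆ X := by
    intro X hX g hg hU
    rw [hvalid, Finset.mem_filter] at hX
    obtain ⟨-, hX2, hXG, hXf⟩ := hX
    have h4 := frag_inter' (m := 0) hgood hXG hXf
      (by rw [card_tr_add, card_tr]; exact hMf) hg hU
    have h5 : X ∩ tr M g ∈ valid := by
      rw [hvalid, Finset.mem_filter]
      refine ⟨Finset.mem_univ _, hg, ?_, h4⟩
      have := Finset.card_le_card (Finset.add_subset_add_right (t := A)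
        (Finset.inter_subset_left (s₁ := X) (s₂ := tr M g)))
      omega
    have h6 := hmin _ h5
    have h7 : X ∩ tr M g = tr M g :=
      Finset.eq_of_subset_of_card_le Finset.inter_subset_right (by rw [card_tr]; exact h6)
    rw [← h7]
    exact Finset.inter_subset_left
  have hat : Atomic M := by
    intro x
    rcases Nat.lt_or_ge 1 (M ∩ tr M x).card with h4 | h4
    · left
      have h5 := Finset.card_union_add_card_inter M (tr M x)
      rw [card_tr] at h5
      exact Finset.eq_of_subset_of_card_le (hcl M hMv x h4 (by omega)) (by rw [card_tr])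
    · right; exact h4
  have hMne : M.Nonempty := by rw [← Finset.card_pos]; omega
  rcases atomic_cases hMne hat with hsid | ⟨P, hP, hP2, a, hPa⟩
  swap
  · left
    rw [hPa, card_tr] at hMA
    rw [hPa, card_tr_add, card_tr, add_comm P A] at hMf
    exact ⟨P, hP, hP2, by omega, by omega⟩
  rcases Nat.lt_or_ge M.card 3 with hM3 | hM3
  · right
    have hMc : M.card = 2 := by omega
    obtain ⟨a, b, hab, hMab⟩ := Finset.card_eq_two.1 hMc
    refine ⟨b - a, sub_ne_zero.2 (Ne.symm hab), ?_⟩
    rw [hMab, pair_card, Finset.card_pair hab] at hMf
    omega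
  exfalso
  rcases Nat.lt_or_ge 3 M.card with hM4 | hM3'
  · -- `|M| ≥ 4`: use `Z`
    have hclosed : ∀ g x y, x ∈ M → y ∈ M → x ≠ y → g + x ∈ Z → g + y ∈ Z → tr M g ⊆ Z := by
      intro g x y hx hy hxy hgx hgy
      have h4 : ({g + x, g + y} : Finset G) ⊆ Z ∩ tr M g := by
        intro w hw
        rw [Finset.mem_insert, Finset.mem_singleton] at hw
        rw [Finset.mem_inter, mem_tr]
        rcases hw with rfl | rfl
        · exact ⟨hgx, by simpa using hx⟩
        · exact ⟨hgy, by simpa using hy⟩
      have h5 := Finset.card_le_card h4
      rw [Finset.card_pair (fun h => hxy (add_left_cancel h))] at h5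
      apply hcl Z hZv g h5
      have h6 := Finset.card_union_add_card_inter Z (tr M g)
      rw [card_tr] at h6
      omega
    obtain ⟨x, hx⟩ := hMne
    obtain ⟨F, hF, hFE⟩ := closed_count hclosed hx
    set T := Finset.univ.filter (fun g => tr M g ⊆ Z) with hT
    have hZM : (Z + M).card ≤ 2 * A.card + 1 := by
      have h4 : Disjoint (Z + M) (A.image (fun y => -y)) := by
        rw [Finset.disjoint_left]
        intro w hw hw'
        obtain ⟨z, hz, m, hm, rfl⟩ := Finset.mem_add.1 hw
        obtain ⟨a, ha, haw⟩ := Finset.mem_image.1 hw'
        rw [hZ, mem_dual] at hz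
        apply hz
        exact Finset.mem_add.2 ⟨m, hm, a, ha, by
          have : a = -(z + m) := by rw [← haw, neg_neg]
          rw [this]; abel⟩
      have h5 := Finset.card_le_univ ((Z + M) ∪ A.image (fun y => -y))
      rw [Finset.card_union_of_disjoint h4, Finset.card_image_of_injective _ neg_injective] at h5
      omega
    have hE : ((Z + M) \ tr Z x).card ≤ M.card := by
      rw [Finset.card_sdiff_of_subset (by
        intro w hw
        rw [mem_tr] at hw
        exact Finset.mem_add.2 ⟨w - x, hw, x, hx, by abel⟩), card_tr]
      omega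
    have hFE' := Finset.card_le_card hFE
    rcases Nat.lt_or_ge 2 F.card with hF3 | hF2
    · obtain ⟨u, hu, v, hv, w, hw, huv, huw, hvw⟩ := Finset.two_lt_card.1 hF3
      have h4 := three_translates (sidonic_mono hsid (Finset.erase_subset x M)) hu hv hw huv huw hvw
      rw [Finset.card_erase_of_mem hx] at h4
      omega
    · -- `T + M ⊆ Z` is periodic
      have hTne : T.Nonempty := by rw [← Finset.card_pos]; omega
      have hMne : M.Nonempty := ⟨x, hx⟩
      have hTM : T + M ⊆ Z := by
        intro w hw
        obtain ⟨t, ht, m, hm, rfl⟩ := Finset.mem_add.1 hw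
        rw [hT, Finset.mem_filter] at ht
        apply ht.2
        rw [mem_tr]
        simpa using hm
      have hTMc := Finset.card_le_card hTM
      have hTMne : (T + M).Nonempty := hTne.add hMne
      have hk := kneser hTne hMne
      set L := stab (T + M) with hL
      have hLs : IsSub L := isSub_stab hTMne
      have h4 : T.card ≤ (T + L).card := Finset.card_le_card (subset_add_sub hLs T)
      have h5 : M.card ≤ (M + L).card := Finset.card_le_card (subset_add_sub hLs M)
      have hL2 : 2 ≤ L.card := by omega
      have hin : ∀ m ∈ M, ∀ m' ∈ M, m - m' ∈ L := by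
        intro m hm m' hm'
        by_contra hcon
        have := sidonic_sub hsid hLs hL2 hm hm' hcon
        omega
      have hML : M ⊆ tr L x := by
        intro m hm
        rw [mem_tr]
        exact hin m hm x hx
      have hMLc := Finset.card_le_card hML
      rw [card_tr] at hMLc
      -- `|T + M| + |A + L| ≤ |G|`
      have hPA : (T + M).card + (A + L).card ≤ Fintype.card G := by
        have h6 : Disjoint (T + M) ((A + L).image (fun y => -x - y)) := by
          rw [Finset.disjoint_left]
          intro p hp hp'
          obtain ⟨y, hy, hyp⟩ := Finset.mem_image.1 hp'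
          obtain ⟨a, ha, l, hl, rfl⟩ := Finset.mem_add.1 hy
          have h7 : p + l ∈ T + M := by
            have h8 := add_mem_of_mem_stab hl hp
            rwa [add_comm l p] at h8
          have h8 := hTM h7
          rw [hZ, mem_dual] at h8
          apply h8
          exact Finset.mem_add.2 ⟨x, hx, a, ha, by
            have : p = -x - (a + l) := hyp.symm
            rw [this]; abel⟩
        have h7 := Finset.card_le_univ ((T + M) ∪ (A + L).image (fun y => -x - y))
        rw [Finset.card_union_of_disjoint h6,
          Finset.card_image_of_injective _ sub_right_injective] at h7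
        exact h7
      have hTc : T.card ≤ (T + M).card := by
        have := Finset.card_le_card (tr_subset_add (M := T) hx)
        rw [card_tr, add_comm M T] at this
        exact this
      have hLG : L.card < Fintype.card G := by
        have h6 : L.card ≤ (T + M).card := by
          obtain ⟨p, hp⟩ := hTMne
          rw [← card_tr L p]
          apply Finset.card_le_card
          intro w hw
          rw [mem_tr] at hw
          have := add_mem_of_mem_stab hw hp
          simpa using this
        omega
      have hNL := hNQ L hLs hL2 hLG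
      -- three translates
      obtain ⟨u, hu, v, hv, w, hw, huv, huw, hvw⟩ :=
        Finset.two_lt_card.1 (by omega : 2 < L.card)
      have h6 := three_translates hsid hu hv hw huv huw hvw
      have h7 : (L + M).card ≤ L.card := by
        rw [← card_tr L x]
        apply Finset.card_le_card
        intro z hz
        obtain ⟨l, hl, m, hm, rfl⟩ := Finset.mem_add.1 hz
        rw [mem_tr, show l + m - x = l + (m - x) by abel]
        exact hLs.add hl (hin m hm x hx)
      omega
  · -- `|M| = 3`
    have hMc : M.card = 3 := by omega
    have hpairG : ∀ x ∈ M, ∀ y ∈ M, x ≠ y → A.card + 3 ≤ (({x, y} : Finset G) + A).card := by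
      intro x hx y hy hxy
      have h4 : ({x, y} : Finset G) ⊆ M := by
        intro w hw
        rw [Finset.mem_insert, Finset.mem_singleton] at hw
        rcases hw with rfl | rfl
        · exact hx
        · exact hy
      have h5 : (({x, y} : Finset G) + A).card ≤ (M + A).card :=
        Finset.card_le_card (Finset.add_subset_add_right h4)
      have h6 := Finset.card_pair hxy
      have h7 := hgood {x, y} (by omega) (by omega)
      rcases h7.lt_or_eq with h8 | h8
      · omega
      · exfalso
        have h9 : ({x, y} : Finset G) ∈ valid := by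
          rw [hvalid, Finset.mem_filter]
          exact ⟨Finset.mem_univ _, by omega, by omega, by omega⟩
        have := hmin _ h9
        omega
    have hclosed : ∀ g x y, x ∈ M → y ∈ M → x ≠ y → g + x ∈ A → g + y ∈ A → tr M g ⊆ A := by
      intro g x y hx hy hxy hgx hgy
      by_contra hnot
      have h4 : ({g + x, g + y} : Finset G) ⊆ A ∩ tr M g := by
        intro w hw
        rw [Finset.mem_insert, Finset.mem_singleton] at hw
        rw [Finset.mem_inter, mem_tr]
        rcases hw with rfl | rfl
        · exact ⟨hgx, by simpa using hx⟩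
        · exact ⟨hgy, by simpa using hy⟩
      have h5 := Finset.card_le_card h4
      rw [Finset.card_pair (fun h => hxy (add_left_cancel h))] at h5
      have h6 : (A ∩ tr M g).card < 3 := by
        have h7 : A ∩ tr M g ⊂ tr M g := by
          refine ⟨Finset.inter_subset_right, fun h => hnot ?_⟩
          exact fun w hw => (Finset.mem_inter.1 (h hw)).1
        have := Finset.card_lt_card h7
        rwa [card_tr, hMc] at this
      have h7 : A.card + 3 ≤ ((A ∩ tr M g) + A).card := by
        have h8 := hpairG x hx y hy hxy
        rw [← card_tr_add ({x, y} : Finset G) A g] at h8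
        refine le_trans h8 (Finset.card_le_card (Finset.add_subset_add_right ?_))
        intro w hw
        rw [mem_tr, Finset.mem_insert, Finset.mem_singleton] at hw
        apply h4
        rw [Finset.mem_insert, Finset.mem_singleton]
        rcases hw with hw | hw
        · left; rw [← hw]; abel
        · right; rw [← hw]; abel
      have h8 := submod A (tr M g) A
      rw [card_tr_add] at h8
      have h9 : A + A ⊆ (A ∪ tr M g) + A := Finset.add_subset_add_right Finset.subset_union_left
      have h10 : A + A = (A ∪ tr M g) + A := Finset.eq_of_subset_of_card_le h9 (by omega)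
      apply hnot
      intro w hw
      by_contra hwA
      have h11 : -w ∈ A + A := by
        by_contra h12
        exact hwA ((hcomp w).2 h12)
      obtain ⟨a, ha, b, hb, hab⟩ := Finset.mem_add.1 h11
      have h12 : w + a ∈ A + A := by
        rw [h10]
        exact Finset.add_mem_add (Finset.mem_union_right _ hw) ha
      have h13 := (hcomp b).1 hb
      apply h13
      have : -b = w + a := by
        have h14 : w = -(a + b) := by rw [hab, neg_neg]
        rw [h14]; abel
      rw [this]
      exact h12
    have hkill := closed_contra (m := 0) (by omega) hsid hM3 (by omega)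
      (fun x hx y hy hxy => hpairG x hx y hy hxy) hclosed
    obtain ⟨x, hx, y, hy, hxy⟩ := Finset.one_lt_card.1 (by omega : 1 < M.card)
    have h4 := hkill x hx y hy hxy
    apply hxy
    have h5 : (y - x) + (y - x) + (y - x) = 0 := by
      rw [← h4, show 3 + 0 = 1 + 1 + 1 by norm_num, add_nsmul, add_nsmul, one_nsmul]
    have h6 := h3 _ h5
    exact (sub_eq_zero.1 h6).symm

end general

end Pool.Agent.Helper20.FF
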