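import Mathlib
import Pool.Agent.Helper20.FF.Arith
import Pool.Agent.Helper20.FF.Mixed
import Pool.Agent.Helper77.FF.Gen
import Pool.Agent.Helper81.FF.P5
import Pool.Agent.Helper85.FF.Tie
import Pool.Agent.Helper43.FF.P4
import Pool.Agent.Helper85.FF.TwoArcs
import Pool.Agent.Helper92.FF.P8

/-!
# The aperiodic sets without quasi-periodic decomposition
-/

set_option autoImplicit false

open scoped Pointwise

namespace Pool.Agent.Helper20.FF

open Pool.Agent.Helper82.Kneser Pool.Agent.Helper20.Span

/-- the primitive shapes -/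
def Shape (n h k : ℕ) (A : Finset (ZMod n)) : Prop :=
  Prog k A ∨ Hole k A ∨ HoleMod h A ∨ (h = 3 ∧ n = 3 * k + 1 ∧ (Three₁ k A ∨ Three₂ k A)) ∨
    (n = 13 ∧ h = 4 ∧ Four A)

/-- the case `|2A| = 2|A|` -/
lemma core_zero (n h k ε : ℕ) [NeZero n] (hh : 3 ≤ h) (ht : Tame n h) (hn : n = h * k + ε)
    (hε : ε ≤ 1) {A : Finset (ZMod n)} (hk3 : 3 ≤ k) (hk : A.card = k)
    (hA : ns A h ≠ Finset.univ)
    (hper : (stab (ns A h)).card ≤ 1) (hNQ : NQ 0 A) (hgood : Good 0 A)
    (hAA : (A + A).card = 2 * k) : Shape n h k A := by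
  classical
  by_cases htie : ∃ H : Finset (ZMod n), IsSub H ∧ 2 ≤ H.card ∧ H.card < n ∧
      (A + H).card = A.card + H.card
  · obtain ⟨H, hH, hH2, hHn, hHt⟩ := htie
    exact Or.inr (Or.inr (Or.inl (Helper85.FF.tie_case n h k ε hh ht hn hε hk hA hper hNQ hH hH2 hHn hHt)))
  have hNQ1 : NQ 1 A := by
    intro P hP hP2 hPn
    have h1 := hNQ P hP hP2 hPn
    rw [ZMod.card] at hPn
    by_contra hcon
    exact htie ⟨P, hP, hP2, hPn, by omega⟩
  have h3k : 3 * k ≤ n := by
    have : 3 * k ≤ h * k := Nat.mul_le_mul_right _ hh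
    omega
  rcases atom_cases (m := 0) (by omega) (fun h => by omega) hgood (by omega) (by omega)
    (by rw [ZMod.card]; omega) with ⟨H, hH, hH2, hHn, hHt⟩ | ⟨r, hr, hrA⟩
  · rw [ZMod.card] at hHn
    exact absurd ⟨H, hH, hH2, hHn, hHt⟩ htie
  · have hru : IsUnit r := by
      apply Helper77.FF.gen_two n h k ε hh ht hn hε hk hA _ hr (by omega)
      rcases Nat.eq_zero_or_pos ε with h0 | h0
      · rw [h0]; exact hNQ1
      · have : 1 - ε = 0 := by omega
        rw [this]; exact hNQ
    rcases Nat.lt_or_ge k 4 with hk4 | hk4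
    · have hk3' : k = 3 := by omega
      subst hk3'
      rcases Helper81.FF.three_elements n h hh ht (by
        rcases Nat.eq_zero_or_pos ε with h0 | h0
        · left; omega
        · right; omega) hk hA (by omega) hru (by omega) with h1 | h1 | h1
      · exact Or.inl h1
      · exact Or.inr (Or.inl h1)
      · exact Or.inr (Or.inr (Or.inr (Or.inr h1)))
    · exact Or.inr (Or.inl (Helper43.FF.arcs_hole n k (tame_odd hh ht) hk4 h3k hk hAA hgood hru (by omega)))

/-- the case `h = 3`, `|2A| = 2|A| + 1` -/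
lemma core_one (n k : ℕ) [NeZero n] (ht : Tame n 3) (hn : n = 3 * k + 1)
    {A : Finset (ZMod n)} (hk3 : 3 ≤ k) (hk : A.card = k)
    (hA : ns A 3 ≠ Finset.univ)
    (hper : (stab (ns A 3)).card ≤ 1) (hNQ : NQ 0 A) (hgood : Good 0 A)
    (hAA : (A + A).card = 2 * k + 1) : Shape n 3 k A := by
  classical
  have hodd := tame_odd (le_refl 3) ht
  have hkev : Even k := by
    rcases Nat.even_or_odd k with he | ho
    · exact he
    · exfalso
      obtain ⟨a, ha⟩ := ho
      obtain ⟨b, hb⟩ := hodd
      omega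
  have hk4 : 4 ≤ k := by
    obtain ⟨a, ha⟩ := hkev
    omega
  by_cases htie : ∃ H : Finset (ZMod n), IsSub H ∧ 2 ≤ H.card ∧ H.card < n ∧
      (A + H).card = A.card + H.card
  · obtain ⟨H, hH, hH2, hHn, hHt⟩ := htie
    exact Or.inr (Or.inr (Or.inl
      (Helper85.FF.tie_case n 3 k 1 le_rfl ht hn le_rfl hk hA hper hNQ hH hH2 hHn hHt)))
  have h3k : (3 : ZMod n) * (-(k : ZMod n)) = 1 := by
    have h1 : ((3 * k + 1 : ℕ) : ZMod n) = 0 := by rw [← hn]; exact ZMod.natCast_self n
    push_cast at h1
    linear_combination -h1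
  -- a missing element
  obtain ⟨x, hx⟩ : ∃ x, x ∉ ns A 3 := by
    by_contra hcon
    push Not at hcon
    exact hA (Finset.eq_univ_iff_forall.2 hcon)
  set t : ZMod n := (k : ZMod n) * x with htdef
  have h3t : (3 : ZMod n) * t = -x := by
    rw [htdef]
    linear_combination (-x) * h3k
  set A' := tr A t with hA'
  have hA'c : A'.card = k := by rw [hA', card_tr]; exact hk
  have h0 : (0 : ZMod n) ∉ ns A' 3 := by
    rw [hA', tr_ns, mem_tr]
    push_cast
    rw [h3t]
    simpa using hx
  have hA'A' : (A' + A').card = 2 * k + 1 := by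
    rw [hA', tr_add_tr, card_tr]; exact hAA
  have hcomp : ∀ y, y ∈ A' ↔ -y ∉ A' + A' := by
    have h1 : A' ⊆ dual A' A' := by
      intro y hy
      rw [mem_dual]
      intro hcon
      apply h0
      rw [show (3 : ℕ) = 2 + 1 by norm_num, ns_succ, show (2 : ℕ) = 1 + 1 by norm_num, ns_succ,
        ns_one]
      exact Finset.mem_add.2 ⟨-y, hcon, y, hy, by ring⟩
    have h2 : (dual A' A').card ≤ A'.card := by
      rw [card_dual, ZMod.card]
      omega
    have h3 := Finset.eq_of_subset_of_card_le h1 h2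
    intro y
    rw [← mem_dual, ← h3]
  have hgood' := good_tr hgood t
  have hNQ' := nq_tr hNQ t
  rw [← hA'] at hgood' hNQ'
  have hnsA' : ns A' 3 ≠ Finset.univ := by
    intro hcon
    apply h0
    rw [hcon]
    exact Finset.mem_univ _
  have hadd : ∀ P : Finset (ZMod n), (A' + P).card = (A + P).card := by
    intro P
    rw [hA', tr_add, card_tr]
  by_cases hX : ∃ X : Finset (ZMod n), 2 ≤ X.card ∧ (X + A').card + 2 ≤ Fintype.card (ZMod n) ∧
      (X + A').card = X.card + A'.card
  · have h3 : ∀ x : ZMod n, x + x + x = 0 → x = 0 := by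
      intro x hx
      have h1 : (3 : ZMod n) * x = 0 := by linear_combination hx
      calc x = (3 * (-(k : ZMod n))) * x := by rw [h3k, one_mul]
        _ = -(k : ZMod n) * (3 * x) := by ring
        _ = 0 := by rw [h1, mul_zero]
    rcases mixed h3 hgood' hNQ' (by rw [ZMod.card]; omega) hcomp hX with
      ⟨H, hH, hH2, hHn, hHt⟩ | ⟨r, hr, hrA⟩
    · exfalso
      rw [ZMod.card] at hHn
      rw [hadd] at hHt
      exact htie ⟨H, hH, hH2, hHn, by omega⟩
    · have hru : IsUnit r := Helper77.FF.gen_two n 3 k 1 le_rfl ht hn le_rfl hA'c hnsA' hNQ' hr (by omega)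
      rcases Helper85.FF.two_arcs n k hn hkev hk4 hA'c hcomp hru (by omega) with h1 | h1 | h1 | h1
      · exact Or.inr (Or.inr (Or.inr (Or.inl ⟨rfl, hn, Or.inl (three₁_tr h1)⟩)))
      · exact Or.inr (Or.inr (Or.inr (Or.inl ⟨rfl, hn, Or.inr (three₂_tr h1)⟩)))
      · exact Or.inr (Or.inl (hole_tr h1))
      · exact Or.inl (prog_tr h1)
  · exfalso
    have hgood1 : Good 1 A' := by
      intro X hX2 hXn
      have h1 := hgood' X hX2 hXn
      by_contra hcon
      exact hX ⟨X, hX2, hXn, by omega⟩
    rcases atom_cases (m := 1) le_rfl (fun _ x hx => by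
        have h1 : (2 : ZMod n) * x = 0 := by linear_combination hx
        obtain ⟨b, hb⟩ := hodd
        have h2 : ((2 * b + 1 : ℕ) : ZMod n) = 0 := by rw [← hb]; exact ZMod.natCast_self n
        push_cast at h2
        linear_combination x * h2 - b * h1) hgood1 (by omega) (by omega)
        (by rw [ZMod.card]; omega) with ⟨H, hH, hH2, hHn, hHt⟩ | ⟨r, hr, hrA⟩
    · have h1 := sub_dvd_card n hH A'
      have h2 := sub_card_dvd n hH
      rw [hHt, hA'c] at h1
      have h3 : H.card ∣ k + 1 := by
        have h4 : H.card ∣ (k + 1) + H.card := by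
          rwa [show k + H.card + 1 = (k + 1) + H.card by ring] at h1
        exact (Nat.dvd_add_left (dvd_refl _)).1 h4
      have h4 : H.card ∣ 2 := by
        have h5 : H.card ∣ 3 * (k + 1) := Dvd.dvd.mul_left h3 3
        rw [show 3 * (k + 1) = n + 2 by omega] at h5
        exact (Nat.dvd_add_right h2).1 h5
      have h5 := Nat.le_of_dvd (by norm_num) h4
      have h6 : H.card = 2 := by omega
      rw [h6] at h2
      obtain ⟨b, hb⟩ := hodd
      omega
    · have hru : IsUnit r := Helper77.FF.gen_three n k ht hn hA'c hnsA' hNQ' hr (by omega)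
      obtain ⟨s, hs, hsA⟩ := Helper92.FF.three_arcs n k hn hkev hk4 hA'c hcomp hru (by omega)
      have h1 := hgood1 {0, s} (by rw [Finset.card_pair (Ne.symm hs)]) (by
        rw [pair_card, sub_zero, ZMod.card]; omega)
      rw [pair_card, sub_zero, Finset.card_pair (Ne.symm hs)] at h1
      omega

/-- **Primitive extremal sets.** -/
theorem core (n h k ε : ℕ) [NeZero n] (hh : 3 ≤ h) (ht : Tame n h) (hn : n = h * k + ε)
    (hε : ε ≤ 1) (hn2 : 2 ≤ n) {A : Finset (ZMod n)} (hk : A.card = k)
    (hA : ns A h ≠ Finset.univ)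
    (hper : (stab (ns A h)).card ≤ 1) (hNQ : NQ 0 A) : Shape n h k A := by
  classical
  have hk1 : 1 ≤ k := by
    rcases Nat.eq_zero_or_pos k with h0 | h0
    · rw [h0, mul_zero] at hn; omega
    · exact h0
  have hne : A.Nonempty := by rw [← Finset.card_pos]; omega
  have h3k : 3 * k ≤ n := by
    have : 3 * k ≤ h * k := Nat.mul_le_mul_right _ hh
    omega
  rcases Nat.lt_or_ge k 2 with hk2 | hk2
  · have hk1' : k = 1 := by omega
    subst hk1'
    obtain ⟨a, rfl⟩ := Finset.card_eq_one.1 hk
    left
    refine ⟨a, 1, isUnit_one, fun x => ?_⟩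
    rw [Finset.mem_singleton]
    constructor
    · rintro rfl
      exact ⟨0, by omega, by simp⟩
    · rintro ⟨i, hi, rfl⟩
      have : i = 0 := by omega
      rw [this]; simp
  rcases Nat.lt_or_ge k 3 with hk3 | hk3
  · have hk2' : k = 2 := by omega
    subst hk2'
    obtain ⟨a, b, hab, rfl⟩ := Finset.card_eq_two.1 hk
    left
    have hgen : ∀ y : ZMod n, y ∈ AddSubgroup.zmultiples (b - a) := by
      have hP := isSub_cyc (b - a)
      have hP2 : 2 ≤ (cyc (b - a)).card := by
        have h2 : ({0, b - a} : Finset (ZMod n)) ⊆ cyc (b - a) := by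
          intro z hz
          rw [Finset.mem_insert, Finset.mem_singleton] at hz
          rcases hz with rfl | rfl
          · exact hP.zero
          · exact mem_cyc.2 (AddSubgroup.mem_zmultiples _)
        have h3 := Finset.card_le_card h2
        rw [Finset.card_pair (Ne.symm (sub_ne_zero.2 (Ne.symm hab)))] at h3
        exact h3
      have hPn : (cyc (b - a)).card = Fintype.card (ZMod n) := by
        rcases (Finset.card_le_univ (cyc (b - a))).lt_or_eq with h1 | h1
        · exfalso
          have h2 := hNQ _ hP hP2 h1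
          have h3 : (({a, b} : Finset (ZMod n)) + cyc (b - a)).card ≤ (cyc (b - a)).card := by
            rw [← card_tr (cyc (b - a)) a]
            apply Finset.card_le_card
            intro z hz
            obtain ⟨c, hc, w, hw, rfl⟩ := Finset.mem_add.1 hz
            rw [mem_tr]
            rw [Finset.mem_insert, Finset.mem_singleton] at hc
            rcases hc with rfl | rfl
            · rwa [show c + w - c = w by ring]
            · rw [show c + w - a = (c - a) + w by ring]
              exact hP.add (mem_cyc.2 (AddSubgroup.mem_zmultiples _)) hw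
          omega
        · exact h1
      have huniv : cyc (b - a) = Finset.univ := Finset.eq_univ_of_card _ hPn
      exact fun y => mem_cyc.1 (by rw [huniv]; simp)
    refine ⟨a, b - a, unit_of_gen hgen, fun x => ?_⟩
    rw [Finset.mem_insert, Finset.mem_singleton]
    constructor
    · rintro (rfl | rfl)
      · exact ⟨0, by omega, by simp⟩
      · exact ⟨1, by omega, by simp⟩
    · rintro ⟨i, hi, rfl⟩
      have : i = 0 ∨ i = 1 := by omega
      rcases this with rfl | rfl
      · left; simp
      · right; simp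
  by_cases hprog : Prog k A
  · exact Or.inl hprog
  have hgood : Good 0 A := by
    intro X hX hXn
    by_contra hcon
    push Not at hcon
    obtain ⟨a, x, hgen, hAx⟩ := vosper (S := A) (X := X) (by omega) hNQ hX hXn (by omega)
    apply hprog
    refine ⟨a, x, unit_of_gen hgen, fun y => ?_⟩
    rw [hAx, Finset.mem_image, hk]
    constructor
    · rintro ⟨i, hi, rfl⟩
      exact ⟨i, Finset.mem_range.1 hi, by rw [nsmul_eq_mul]⟩
    · rintro ⟨i, hi, rfl⟩
      exact ⟨i, Finset.mem_range.2 hi, by rw [nsmul_eq_mul]⟩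
  obtain ⟨m, rfl⟩ : ∃ m, h = m + 1 := ⟨h - 1, by omega⟩
  -- sizes of the sumsets
  have hsmall : ∀ j, 1 ≤ j → j ≤ m → (ns A j).card + 2 ≤ n := by
    intro j hj1 hjm
    have h1 : ns A (j + (m + 1 - j)) ≠ Finset.univ := by
      rw [show j + (m + 1 - j) = m + 1 by omega]; exact hA
    have h2 := ns_card_add h1
    have h3 := ns_card_mono hne (show 1 ≤ m + 1 - j by omega)
    rw [ns_one, hk] at h3
    omega
  have hstep : ∀ j, 1 ≤ j → j + 1 ≤ m → (ns A j).card + k ≤ (ns A (j + 1)).card := by
    intro j hj1 hjm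
    have h1 := ns_card_mono hne hj1
    rw [ns_one, hk] at h1
    have h2 := hgood (ns A j) (by omega) (by
      rw [← ns_succ, ZMod.card]
      exact hsmall (j + 1) (by omega) hjm)
    rw [← ns_succ, hk] at h2
    omega
  have h2A : ns A 2 = A + A := by
    rw [show (2 : ℕ) = 1 + 1 by norm_num, ns_succ, ns_one]
  have hAA2 : 2 * k ≤ (A + A).card := by
    have h1 := hstep 1 le_rfl (by omega)
    rw [ns_one, hk, show 1 + 1 = 2 by norm_num, h2A] at h1
    omega
  have hchain : ∀ j, 2 ≤ j → j ≤ m → (ns A 2).card + (j - 2) * k ≤ (ns A j).card := by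
    intro j hj
    induction j, hj using Nat.le_induction with
    | base => intro _; simp
    | succ j hj ih =>
      intro hjm
      have h1 := ih (by omega)
      have h2 := hstep j (by omega) hjm
      have h3 : (j + 1 - 2) * k = (j - 2) * k + k := by
        rw [show j + 1 - 2 = (j - 2) + 1 by omega]; ring
      omega
  rcases Nat.lt_or_ge m 3 with hm3 | hm3
  · -- `h = 3`
    have hm2 : m = 2 := by omega
    subst hm2
    have h1 : (ns A 1).card + (ns A 2).card ≤ n := ns_card_add (by
      rw [show 1 + 2 = 2 + 1 by norm_num]; exact hA)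
    rw [ns_one, h2A, hk] at h1
    have h2 : (A + A).card ≤ 2 * k + ε := by omega
    rcases Nat.lt_or_ge (2 * k) (A + A).card with h3 | h3
    · have hε1 : ε = 1 := by omega
      subst hε1
      exact core_one n k ht hn hk3 hk hA hper hNQ hgood (by omega)
    · exact core_zero n 3 k ε le_rfl ht hn hε hk3 hk hA hper hNQ hgood (by omega)
  · have h1 : (ns A 2).card + (ns A (m - 1)).card ≤ n := ns_card_add (by
      rw [show 2 + (m - 1) = m + 1 by omega]; exact hA)
    have h2 := hchain (m - 1) (by omega) (by omega)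
    rw [h2A] at h1 h2
    have h3 : (m + 1) * k = (m - 1 - 2) * k + 4 * k := by
      obtain ⟨l, rfl⟩ : ∃ l, m = l + 3 := ⟨m - 3, by omega⟩
      rw [show l + 3 - 1 - 2 = l by omega]; ring
    exact core_zero n (m + 1) k ε hh ht hn hε hk3 hk hA hper hNQ hgood (by omega)

end Pool.Agent.Helper20.FF
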