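import Mathlib
import Pool.Agent.Helper20.FF.Arith

/-!
# The family of extremal sets, with the sizes
-/

set_option autoImplicit false

open scoped Pointwise

namespace Pool.Agent.Helper20.FF

open Pool.Agent.Helper82.Kneser Pool.Agent.Helper20.Span

/-- **The family of extremal sets.** `Family h n A` says that the subset `A` of `ZMod n` is obtained
by one of the following rules; `v1 n h` is the maximal size of a set with `hA ≠ ZMod n`. -/
inductive Family (h : ℕ) : (n : ℕ) → Set (ZMod n) → Prop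
  /-- the empty set in the trivial group -/
  | empty : Family h 1 ∅
  /-- progressions with `⌊(n-2)/h⌋ + 1` terms and unit difference -/
  | progression (n : ℕ) (a δ : ZMod n) : 2 ≤ n → (n - 2) / h + 1 = v1 n h → IsUnit δ →
      Family h n {x | ∃ i : ℕ, i ≤ (n - 2) / h ∧ x = a + i * δ}
  /-- progressions with a hole modulo a divisor `m` of `n`, `m ≥ h (k+1)`: the classes
  `a, a + δ, ..., a + (k-1)δ` modulo `m`, the class `a + kδ` without one element `u`, and one
  element `v` of the class `a + (k+1)δ`; for `m = n` these are the sets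
  `{a, ..., a + (k-1)δ} ∪ {a + (k+1)δ}` -/
  | hole (n m k : ℕ) (hm : m ∣ n) (a δ : ZMod m) (u v : ZMod n) : h * (k + 1) ≤ m →
      (k + 1) * (n / m) = v1 n h → IsUnit δ →
      ZMod.castHom hm (ZMod m) u = a + k * δ → ZMod.castHom hm (ZMod m) v = a + (k + 1) * δ →
      Family h n {x | (∃ i : ℕ, i < k ∧ ZMod.castHom hm (ZMod m) x = a + i * δ) ∨
        (ZMod.castHom hm (ZMod m) x = a + k * δ ∧ x ≠ u) ∨ x = v}
  /-- `h = 3`, `n = 3k+1`: a progression with both next-to-end elements removed -/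
  | threeFirst (n k : ℕ) (a δ : ZMod n) : h = 3 → n = 3 * k + 1 → 2 ≤ k → v1 n h = k →
      IsUnit δ →
      Family h n {x | x = a ∨ (∃ i : ℕ, 2 ≤ i ∧ i < k ∧ x = a + i * δ) ∨ x = a + (k + 1) * δ}
  /-- `h = 3`, `n = 3k+1`: the progression `0, ..., k+1` without `k-2` and `k` -/
  | threeSecond (n k : ℕ) (a δ : ZMod n) : h = 3 → n = 3 * k + 1 → 2 ≤ k → v1 n h = k →
      IsUnit δ →
      Family h n {x | (∃ i : ℕ, i + 3 ≤ k ∧ x = a + i * δ) ∨ x = a + (k - 1) * δ ∨
        x = a + (k + 1) * δ}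
  /-- one sporadic set up to affine maps, for `h = 4`, `n = 13` -/
  | sporadic (a δ : ZMod 13) : h = 4 → IsUnit δ →
      Family h 13 {x | x = a ∨ x = a + δ ∨ x = a + 4 * δ}
  /-- full preimages under the reduction modulo a proper divisor `d` of `n` -/
  | preimage (n d : ℕ) (hd : d ∣ n) (B : Set (ZMod d)) : d < n → v1 d h * (n / d) = v1 n h →
      Family h d B → Family h n {x | ZMod.castHom hd (ZMod d) x ∈ B}
  /-- the quasi-periodic step, `n = m t` with `m = h q + 1`, `q ≥ 1`: the classes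
  `g + δ, ..., g + qδ` modulo `m` and the copy `g + m B`, in the class of `g` modulo `m`, of a set
  `B` of the family in `ZMod t` -/
  | step (n m t q : ℕ) (hmt : m * t = n) (δ : ZMod m) (g : ZMod n) (B : Set (ZMod t)) :
      m = h * q + 1 → 1 ≤ q → q * t + v1 t h = v1 n h → IsUnit δ → Family h t B →
      Family h n {x | (∃ i : ℕ, 1 ≤ i ∧ i ≤ q ∧
        ZMod.castHom (Dvd.intro t hmt) (ZMod m) (x - g) = i * δ) ∨
        ∃ y ∈ B, x = g + ((m * y.val : ℕ) : ZMod n)}

theorem family_ext {h n : ℕ} {A : Set (ZMod n)} (hA : Family h n A) : Ext h n A := by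
  induction hA with
  | empty => exact Ext.empty
  | progression n a δ h1 _ h2 => exact Ext.prog n a δ h1 h2
  | hole n m k hm a δ u v h1 _ h2 h3 h4 => exact Ext.hole n m k hm a δ u v h1 h2 h3 h4
  | threeFirst n k a δ h1 h2 h3 _ h4 => exact Ext.three₁ n k a δ h1 h2 (by omega) h4
  | threeSecond n k a δ h1 h2 h3 _ h4 => exact Ext.three₂ n k a δ h1 h2 (by omega) h4
  | sporadic a δ h1 h2 => exact Ext.four a δ h1 h2
  | preimage n d hd B _ _ _ ih => exact Ext.lift n d hd B ih
  | step n m t q hmt δ g B h1 _ _ h2 _ ih => exact Ext.step n m t q hmt δ g B (by omega) h2 ih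

/-! ## Sizes -/

lemma nat_inj {n : ℕ} {δ : ZMod n} (hδ : IsUnit δ) {a : ZMod n} {i j : ℕ} (hi : i < n)
    (hj : j < n) (h : a + (i : ZMod n) * δ = a + j * δ) : i = j := by
  have h1 : (i : ZMod n) * δ = j * δ := add_left_cancel h
  have h2 := hδ.mul_right_cancel h1
  rw [ZMod.natCast_eq_natCast_iff'] at h2
  rwa [Nat.mod_eq_of_lt hi, Nat.mod_eq_of_lt hj] at h2

lemma card_index {n : ℕ} {δ : ZMod n} (hδ : IsUnit δ) {a : ZMod n} {I : Finset ℕ}
    (hI : ∀ i ∈ I, i < n) {A : Finset (ZMod n)} (hA : ∀ x, x ∈ A ↔ ∃ i ∈ I, x = a + i * δ) :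
    A.card = I.card := by
  classical
  have h1 : A = I.image (fun i : ℕ => a + i * δ) := by
    ext x
    rw [hA, Finset.mem_image]
    constructor
    · rintro ⟨i, hi, rfl⟩; exact ⟨i, hi, rfl⟩
    · rintro ⟨i, hi, rfl⟩; exact ⟨i, hi, rfl⟩
  rw [h1, Finset.card_image_of_injOn]
  intro i hi j hj hij
  exact nat_inj hδ (hI i (Finset.mem_coe.1 hi)) (hI j (Finset.mem_coe.1 hj)) hij

lemma card_holeMod {n m k h : ℕ} [NeZero n] (hh : 3 ≤ h) (hm : m ∣ n) {a δ : ZMod m}
    {u v : ZMod n} (hk : h * (k + 1) ≤ m) (hδ : IsUnit δ)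
    (hu : ZMod.castHom hm (ZMod m) u = a + k * δ)
    (hv : ZMod.castHom hm (ZMod m) v = a + (k + 1) * δ) {A : Finset (ZMod n)}
    (hA : ∀ x, x ∈ A ↔ (∃ i : ℕ, i < k ∧ ZMod.castHom hm (ZMod m) x = a + i * δ) ∨
      (ZMod.castHom hm (ZMod m) x = a + k * δ ∧ x ≠ u) ∨ x = v) :
    A.card = (k + 1) * (n / m) := by
  classical
  have hn0 : 0 < n := NeZero.pos n
  have hm0 : 0 < m := Nat.pos_of_dvd_of_pos hm hn0
  have : NeZero m := ⟨hm0.ne'⟩
  have hk2 : k + 2 ≤ m := by
    have : 3 * (k + 1) ≤ h * (k + 1) := Nat.mul_le_mul_right _ hh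
    omega
  set f : ZMod n →+ ZMod m := (ZMod.castHom hm (ZMod m)).toAddMonoidHom with hf
  have hfs : Function.Surjective f := ZMod.castHom_surjective hm
  have hfx : ∀ x, ZMod.castHom hm (ZMod m) x = f x := fun x => rfl
  set B := (Finset.range (k + 1)).image (fun i : ℕ => a + i * δ) with hB
  have hBc : B.card = k + 1 := by
    rw [card_index hδ (I := Finset.range (k + 1)) (a := a)
      (fun i hi => by rw [Finset.mem_range] at hi; omega) (fun x => by
        rw [hB, Finset.mem_image]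
        constructor
        · rintro ⟨i, hi, rfl⟩; exact ⟨i, hi, rfl⟩
        · rintro ⟨i, hi, rfl⟩; exact ⟨i, hi, rfl⟩), Finset.card_range]
  have huB : u ∈ pre f B := by
    rw [mem_pre, ← hfx, hu, hB, Finset.mem_image]
    exact ⟨k, by rw [Finset.mem_range]; omega, rfl⟩
  have hvB : v ∉ pre f B := by
    rw [mem_pre, ← hfx, hv, hB, Finset.mem_image]
    rintro ⟨i, hi, h1⟩
    rw [Finset.mem_range] at hi
    have h2 : a + (i : ZMod m) * δ = a + ((k + 1 : ℕ) : ZMod m) * δ := by
      rw [h1]; push_cast; ring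
    have h3 := nat_inj hδ (by omega) (by omega) h2
    omega
  have hAeq : A = insert v ((pre f B).erase u) := by
    ext x
    rw [hA, Finset.mem_insert, Finset.mem_erase, mem_pre, hB, Finset.mem_image]
    constructor
    · rintro (⟨i, hi, h1⟩ | ⟨h1, h2⟩ | h1)
      · right
        refine ⟨?_, i, by rw [Finset.mem_range]; omega, ?_⟩
        · rintro rfl
          rw [hu] at h1
          have h3 := nat_inj hδ (by omega) (by omega) h1
          omega
        · rw [← hfx]; exact h1.symm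
      · right
        exact ⟨h2, k, by rw [Finset.mem_range]; omega, by rw [← hfx]; exact h1.symm⟩
      · exact Or.inl h1
    · rintro (h1 | ⟨h1, i, hi, h2⟩)
      · exact Or.inr (Or.inr h1)
      · rw [Finset.mem_range] at hi
        rcases Nat.lt_or_ge i k with h3 | h3
        · exact Or.inl ⟨i, h3, by rw [hfx]; exact h2.symm⟩
        · have h4 : i = k := by omega
          rw [h4] at h2
          exact Or.inr (Or.inl ⟨by rw [hfx]; exact h2.symm, h1⟩)
  have hcard := card_pre hfs B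
  rw [hBc, ZMod.card, ZMod.card] at hcard
  have h1 : (pre f B).card = (k + 1) * (n / m) := by
    obtain ⟨t, ht⟩ := hm
    have hnm : n / m = t := by rw [ht]; exact Nat.mul_div_cancel_left t hm0
    rw [hnm]
    have h2 : (pre f B).card * m = ((k + 1) * t) * m := by rw [hcard, ht]; ring
    exact Nat.eq_of_mul_eq_mul_right hm0 h2
  rw [hAeq, Finset.card_insert_of_notMem, Finset.card_erase_of_mem huB, h1]
  · have h2 : 0 < (pre f B).card := Finset.card_pos.2 ⟨u, huB⟩
    rw [h1] at h2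
    omega
  · rw [Finset.mem_erase]
    exact fun h => hvB h.2

lemma card_three₁ {n k : ℕ} [NeZero n] (hn : n = 3 * k + 1) (hk : 2 ≤ k) {a δ : ZMod n}
    (hδ : IsUnit δ) {A : Finset (ZMod n)}
    (hA : ∀ x, x ∈ A ↔ x = a ∨ (∃ i : ℕ, 2 ≤ i ∧ i < k ∧ x = a + i * δ) ∨
      x = a + (k + 1) * δ) : A.card = k := by
  classical
  rw [card_index hδ (a := a) (I := insert 0 (insert (k + 1) (Finset.Ico 2 k))) ?_ ?_]
  · rw [Finset.card_insert_of_notMem, Finset.card_insert_of_notMem, Nat.card_Ico]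
    · omega
    · rw [Finset.mem_Ico]; omega
    · rw [Finset.mem_insert, Finset.mem_Ico]; omega
  · intro i hi
    rw [Finset.mem_insert, Finset.mem_insert, Finset.mem_Ico] at hi
    omega
  · intro x
    rw [hA]
    simp only [Finset.mem_insert, Finset.mem_Ico]
    constructor
    · rintro (rfl | ⟨i, h1, h2, rfl⟩ | rfl)
      · exact ⟨0, Or.inl rfl, by simp⟩
      · exact ⟨i, Or.inr (Or.inr ⟨h1, h2⟩), rfl⟩
      · exact ⟨k + 1, Or.inr (Or.inl rfl), by push_cast; ring⟩
    · rintro ⟨i, rfl | rfl | ⟨h1, h2⟩, rfl⟩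
      · left; simp
      · right; right; push_cast; ring
      · exact Or.inr (Or.inl ⟨i, h1, h2, rfl⟩)

lemma card_three₂ {n k : ℕ} [NeZero n] (hn : n = 3 * k + 1) (hk : 2 ≤ k) {a δ : ZMod n}
    (hδ : IsUnit δ) {A : Finset (ZMod n)}
    (hA : ∀ x, x ∈ A ↔ (∃ i : ℕ, i + 3 ≤ k ∧ x = a + i * δ) ∨ x = a + (k - 1) * δ ∨
      x = a + (k + 1) * δ) : A.card = k := by
  classical
  have hk1 : ((k - 1 : ℕ) : ZMod n) = k - 1 := by
    rw [Nat.cast_sub (by omega)]; simp
  rw [card_index hδ (a := a) (I := insert (k - 1) (insert (k + 1) (Finset.range (k - 2)))) ?_ ?_]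
  · rw [Finset.card_insert_of_notMem, Finset.card_insert_of_notMem, Finset.card_range]
    · omega
    · rw [Finset.mem_range]; omega
    · rw [Finset.mem_insert, Finset.mem_range]; omega
  · intro i hi
    rw [Finset.mem_insert, Finset.mem_insert, Finset.mem_range] at hi
    omega
  · intro x
    rw [hA]
    simp only [Finset.mem_insert, Finset.mem_range]
    constructor
    · rintro (⟨i, h1, rfl⟩ | rfl | rfl)
      · exact ⟨i, Or.inr (Or.inr (by omega)), rfl⟩
      · exact ⟨k - 1, Or.inl rfl, by rw [hk1]⟩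
      · exact ⟨k + 1, Or.inr (Or.inl rfl), by push_cast; ring⟩
    · rintro ⟨i, rfl | rfl | h1, rfl⟩
      · right; left; rw [hk1]
      · right; right; push_cast; ring
      · exact Or.inl ⟨i, by omega, rfl⟩

lemma card_four {a δ : ZMod 13} (hδ : IsUnit δ) {A : Finset (ZMod 13)}
    (hA : ∀ x, x ∈ A ↔ x = a ∨ x = a + δ ∨ x = a + 4 * δ) : A.card = 3 := by
  classical
  rw [card_index hδ (a := a) (I := {0, 1, 4}) ?_ ?_]
  · rfl
  · intro i hi
    simp only [Finset.mem_insert, Finset.mem_singleton] at hi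
    omega
  · intro x
    rw [hA]
    simp only [Finset.mem_insert, Finset.mem_singleton]
    constructor
    · rintro (rfl | rfl | rfl)
      · exact ⟨0, Or.inl rfl, by simp⟩
      · exact ⟨1, Or.inr (Or.inl rfl), by simp⟩
      · exact ⟨4, Or.inr (Or.inr rfl), by simp⟩
    · rintro ⟨i, rfl | rfl | rfl, rfl⟩
      · left; simp
      · right; left; simp
      · right; right; simp

lemma card_preimage {n d : ℕ} [NeZero n] (hd : d ∣ n) {B : Finset (ZMod d)}
    {A : Finset (ZMod n)} (hA : ∀ x, x ∈ A ↔ ZMod.castHom hd (ZMod d) x ∈ B) :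
    A.card = B.card * (n / d) := by
  classical
  have hn0 : 0 < n := NeZero.pos n
  have hd0 : 0 < d := Nat.pos_of_dvd_of_pos hd hn0
  have : NeZero d := ⟨hd0.ne'⟩
  set f : ZMod n →+ ZMod d := (ZMod.castHom hd (ZMod d)).toAddMonoidHom with hf
  have hfs : Function.Surjective f := ZMod.castHom_surjective hd
  have h1 : A = pre f B := by
    ext x
    rw [hA, mem_pre]
    rfl
  have h2 := card_pre hfs B
  rw [← h1, ZMod.card, ZMod.card] at h2
  obtain ⟨t, ht⟩ := hd
  have hnd : n / d = t := by rw [ht]; exact Nat.mul_div_cancel_left t hd0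
  rw [hnd]
  have h3 : A.card * d = (B.card * t) * d := by rw [h2, ht]; ring
  exact Nat.eq_of_mul_eq_mul_right hd0 h3

lemma card_step {n m t q h : ℕ} [NeZero n] (hh : 3 ≤ h) (hmt : m * t = n) {δ : ZMod m}
    {g : ZMod n} {B : Finset (ZMod t)} (hq : h * q < m) (hδ : IsUnit δ) {A : Finset (ZMod n)}
    (hA : ∀ x, x ∈ A ↔ (∃ i : ℕ, 1 ≤ i ∧ i ≤ q ∧
        ZMod.castHom (Dvd.intro t hmt) (ZMod m) (x - g) = i * δ) ∨
        ∃ y ∈ B, x = g + ((m * y.val : ℕ) : ZMod n)) : A.card = q * t + B.card := by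
  classical
  have hn0 : 0 < n := NeZero.pos n
  have hm0 : 0 < m := Nat.pos_of_dvd_of_pos (Dvd.intro t hmt) hn0
  have ht0 : 0 < t := Nat.pos_of_dvd_of_pos (Dvd.intro_left m hmt) hn0
  have : NeZero m := ⟨hm0.ne'⟩
  have : NeZero t := ⟨ht0.ne'⟩
  have hqm : q + 1 ≤ m := by
    have : q ≤ h * q := Nat.le_mul_of_pos_left _ (by omega)
    omega
  set f : ZMod n →+ ZMod m := (ZMod.castHom (Dvd.intro t hmt) (ZMod m)).toAddMonoidHom with hf
  have hfs : Function.Surjective f := ZMod.castHom_surjective (Dvd.intro t hmt)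
  have hfx : ∀ x, ZMod.castHom (Dvd.intro t hmt) (ZMod m) x = f x := fun x => rfl
  set C := (Finset.Icc 1 q).image (fun i : ℕ => f g + i * δ) with hC
  have hCc : C.card = q := by
    rw [card_index hδ (I := Finset.Icc 1 q) (a := f g)
      (fun i hi => by rw [Finset.mem_Icc] at hi; omega) (fun x => by
        rw [hC, Finset.mem_image]
        constructor
        · rintro ⟨i, hi, rfl⟩; exact ⟨i, hi, rfl⟩
        · rintro ⟨i, hi, rfl⟩; exact ⟨i, hi, rfl⟩), Nat.card_Icc]
    omega
  have hCp : (pre f C).card = q * t := by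
    have h1 := card_pre hfs C
    rw [hCc, ZMod.card, ZMod.card] at h1
    have h2 : (pre f C).card * m = (q * t) * m := by rw [h1, ← hmt]; ring
    exact Nat.eq_of_mul_eq_mul_right hm0 h2
  set D := B.image (fun y => g + ((m * y.val : ℕ) : ZMod n)) with hD
  have hDc : D.card = B.card := by
    rw [hD, Finset.card_image_of_injective]
    intro y z hyz
    simp only at hyz
    have h1 := add_left_cancel hyz
    rw [ZMod.natCast_eq_natCast_iff'] at h1
    have hy : m * y.val < n := by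
      rw [← hmt]; exact Nat.mul_lt_mul_of_pos_left (ZMod.val_lt y) hm0
    have hz : m * z.val < n := by
      rw [← hmt]; exact Nat.mul_lt_mul_of_pos_left (ZMod.val_lt z) hm0
    rw [Nat.mod_eq_of_lt hy, Nat.mod_eq_of_lt hz] at h1
    exact ZMod.val_injective t (Nat.eq_of_mul_eq_mul_left hm0 h1)
  have hcast : ∀ y : ZMod t, f ((m * y.val : ℕ) : ZMod n) = 0 := by
    intro y
    rw [← hfx, map_natCast, ZMod.natCast_eq_zero_iff]
    exact ⟨y.val, rfl⟩
  have hdisj : Disjoint (pre f C) D := by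
    rw [Finset.disjoint_left]
    intro x hx hx'
    rw [mem_pre, hC, Finset.mem_image] at hx
    obtain ⟨i, hi, hix⟩ := hx
    rw [hD, Finset.mem_image] at hx'
    obtain ⟨y, hy, rfl⟩ := hx'
    rw [map_add, hcast, add_zero] at hix
    rw [Finset.mem_Icc] at hi
    have h1 : f g + (i : ZMod m) * δ = f g + ((0 : ℕ) : ZMod m) * δ := by
      rw [hix]; simp
    have h2 := nat_inj hδ (by omega) hm0 h1
    omega
  have hAeq : A = pre f C ∪ D := by
    ext x
    rw [hA, Finset.mem_union, mem_pre, hC, hD, Finset.mem_image, Finset.mem_image]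
    constructor
    · rintro (⟨i, h1, h2, h3⟩ | ⟨y, hy, rfl⟩)
      · left
        refine ⟨i, by rw [Finset.mem_Icc]; omega, ?_⟩
        rw [hfx, map_sub] at h3
        rw [← h3]; ring
      · exact Or.inr ⟨y, hy, rfl⟩
    · rintro (⟨i, hi, h3⟩ | ⟨y, hy, rfl⟩)
      · left
        rw [Finset.mem_Icc] at hi
        refine ⟨i, hi.1, hi.2, ?_⟩
        rw [hfx, map_sub, ← h3]; ring
      · exact Or.inr ⟨y, hy, rfl⟩
  rw [hAeq, Finset.card_union_of_disjoint hdisj, hCp, hDc]

lemma v1_thirteen : v1 13 4 = 3 := by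
  have ht : Tame 13 4 := by
    intro e he
    have h1 : e ∈ Nat.divisors 13 := Nat.mem_divisors.2 ⟨he, by norm_num⟩
    have h2 : Nat.divisors 13 = {1, 13} := by decide
    rw [h2, Finset.mem_insert, Finset.mem_singleton] at h1
    rcases h1 with rfl | rfl <;> simp
  exact v1_tame (by norm_num) ht (by norm_num) (show 13 = 4 * 3 + 1 by norm_num) le_rfl

/-- the sets of the family have the right size -/
theorem family_card {h : ℕ} (hh : 3 ≤ h) {n : ℕ} {A : Set (ZMod n)} (hA : Family h n A) :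
    0 < n → ∀ A' : Finset (ZMod n), (∀ x, x ∈ A' ↔ x ∈ A) → A'.card = v1 n h := by
  classical
  induction hA with
  | empty =>
    intro _ A' hA'
    have h1 : A' = ∅ := by
      ext x
      rw [hA']
      simp
    have h2 : v1 1 h = 0 := by
      unfold v1
      simp
    rw [h1, h2, Finset.card_empty]
  | progression n a δ h1 h2 h3 =>
    intro hn0 A' hA'
    have : NeZero n := ⟨hn0.ne'⟩
    rw [← h2, card_index h3 (a := a) (I := Finset.range ((n - 2) / h + 1)) ?_ ?_,
      Finset.card_range]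
    · intro i hi
      rw [Finset.mem_range] at hi
      have := Nat.div_le_self (n - 2) h
      omega
    · intro x
      rw [hA', Set.mem_ofPred_eq]
      constructor
      · rintro ⟨i, hi, h4⟩; exact ⟨i, by rw [Finset.mem_range]; omega, h4⟩
      · rintro ⟨i, hi, h4⟩; exact ⟨i, by rw [Finset.mem_range] at hi; omega, h4⟩
  | hole n m k hm a δ u v h1 h2 h3 h4 h5 =>
    intro hn0 A' hA'
    have : NeZero n := ⟨hn0.ne'⟩
    rw [← h2]
    exact card_holeMod hh hm h1 h3 h4 h5 (fun x => by rw [hA', Set.mem_ofPred_eq])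
  | threeFirst n k a δ h1 h2 h3 h4 h5 =>
    intro hn0 A' hA'
    have : NeZero n := ⟨hn0.ne'⟩
    rw [h4]
    exact card_three₁ h2 h3 h5 (fun x => by rw [hA', Set.mem_ofPred_eq])
  | threeSecond n k a δ h1 h2 h3 h4 h5 =>
    intro hn0 A' hA'
    have : NeZero n := ⟨hn0.ne'⟩
    rw [h4]
    exact card_three₂ h2 h3 h5 (fun x => by rw [hA', Set.mem_ofPred_eq])
  | sporadic a δ h1 h2 =>
    intro _ A' hA'
    rw [h1, v1_thirteen]
    exact card_four h2 (fun x => by rw [hA', Set.mem_ofPred_eq])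
  | preimage n d hd B _ h1 _ ih =>
    intro hn0 A' hA'
    have : NeZero n := ⟨hn0.ne'⟩
    have hd0 : 0 < d := Nat.pos_of_dvd_of_pos hd hn0
    have : NeZero d := ⟨hd0.ne'⟩
    set B' : Finset (ZMod d) := Finset.univ.filter (fun x => x ∈ B) with hB'
    have h2 : ∀ x, x ∈ B' ↔ x ∈ B := fun x => by rw [hB', Finset.mem_filter]; simp
    have h3 := ih hd0 B' h2
    rw [card_preimage hd (B := B') (fun x => by rw [hA', Set.mem_ofPred_eq, h2]), h3, h1]
  | step n m t q hmt δ g B h0 _ h2 h3 _ ih =>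
    have h1 : h * q < m := by omega
    intro hn0 A' hA'
    have : NeZero n := ⟨hn0.ne'⟩
    have ht0 : 0 < t := Nat.pos_of_dvd_of_pos (Dvd.intro_left m hmt) hn0
    have : NeZero t := ⟨ht0.ne'⟩
    set B' : Finset (ZMod t) := Finset.univ.filter (fun x => x ∈ B) with hB'
    have h4 : ∀ x, x ∈ B' ↔ x ∈ B := fun x => by rw [hB', Finset.mem_filter]; simp
    have h5 := ih ht0 B' h4
    rw [card_step hh hmt (g := g) (B := B') h1 h3 (fun x => by
      rw [hA', Set.mem_ofPred_eq]
      simp only [h4]), h5, h2]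

end Pool.Agent.Helper20.FF
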