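import Mathlib
import Pool.Agent.Helper20.FF.Core
import Pool.Agent.Helper20.FF.Family
import Pool.Agent.Helper61.FF.Quasi

/-!
# The complete classification: every extremal set is obtained by the rules
-/

set_option autoImplicit false

open scoped Pointwise

namespace Pool.Agent.Helper20.FF

open Pool.Agent.Helper82.Kneser Pool.Agent.Helper20.Span

/-- the primitive shapes are among the sets of the classification -/
lemma family_of_shape (n h k ε : ℕ) [NeZero n] (hh : 3 ≤ h) (hn : n = h * k + ε)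
    (hε : ε ≤ 1) (hn2 : 2 ≤ n) (hodd : Odd n) (hv' : v1 n h = k) {A : Finset (ZMod n)}
    (hAc : A.card = k) (hA : Shape n h k A) :
    Family h n (A : Set (ZMod n)) := by
  have hk1 : 1 ≤ k := by
    rcases Nat.eq_zero_or_pos k with h0 | h0
    · rw [h0, mul_zero] at hn; omega
    · exact h0
  rcases hA with ⟨a, δ, hδ, hA⟩ | ⟨a, δ, hδ, hA⟩ | ⟨m, hm, k', a, δ, u, v, hk', hδ, hu, hv, hA⟩ |
    ⟨h3, hn3, ⟨a, δ, hδ, hA⟩ | ⟨a, δ, hδ, hA⟩⟩ | ⟨h13, h4, a, δ, hδ, hA⟩
  · have h1 : (A : Set (ZMod n)) = {x | ∃ i : ℕ, i ≤ (n - 2) / h ∧ x = a + i * δ} := by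
      ext x
      rw [Finset.mem_coe, hA, Set.mem_ofPred_eq]
      have h2 := div_eq_pred hh hε hk1
      rw [← hn] at h2
      constructor
      · rintro ⟨i, hi, h3⟩; exact ⟨i, by omega, h3⟩
      · rintro ⟨i, hi, h3⟩; exact ⟨i, by omega, h3⟩
    rw [h1]
    exact Family.progression n a δ hn2 (by have := div_eq_pred hh hε hk1; rw [← hn] at this; omega) hδ
  · have h1 : (A : Set (ZMod n)) = {x | (∃ i : ℕ, i < k - 1 ∧
        ZMod.castHom (dvd_refl n) (ZMod n) x = a + i * δ) ∨
        (ZMod.castHom (dvd_refl n) (ZMod n) x = a + ((k - 1 : ℕ) : ZMod n) * δ ∧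
          x ≠ a + ((k - 1 : ℕ) : ZMod n) * δ) ∨ x = a + k * δ} := by
      ext x
      rw [Finset.mem_coe, hA, Set.mem_ofPred_eq]
      have hc : ZMod.castHom (dvd_refl n) (ZMod n) x = x := by simp
      rw [hc]
      constructor
      · rintro (⟨i, hi, h3⟩ | h3)
        · exact Or.inl ⟨i, by omega, h3⟩
        · exact Or.inr (Or.inr h3)
      · rintro (⟨i, hi, h3⟩ | ⟨h3, h4⟩ | h3)
        · exact Or.inl ⟨i, by omega, h3⟩
        · exact absurd h3 h4
        · exact Or.inr h3
    rw [h1]
    refine Family.hole n n (k - 1) (dvd_refl n) a δ (a + ((k - 1 : ℕ) : ZMod n) * δ) (a + k * δ)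
      ?_ ?_ hδ ?_ ?_
    · rw [show k - 1 + 1 = k by omega]; omega
    · rw [Nat.div_self (by omega), hv']; omega
    · simp
    · have : ((k - 1 : ℕ) : ZMod n) + 1 = k := by
        have h2 : ((k - 1 + 1 : ℕ) : ZMod n) = (k : ZMod n) := by
          rw [show k - 1 + 1 = k by omega]
        push_cast at h2
        exact h2
      rw [this]
      simp
  · have h1 : (A : Set (ZMod n)) = {x | (∃ i : ℕ, i < k' ∧
        ZMod.castHom hm (ZMod m) x = a + i * δ) ∨
        (ZMod.castHom hm (ZMod m) x = a + k' * δ ∧ x ≠ u) ∨ x = v} := by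
      ext x
      rw [Finset.mem_coe, hA, Set.mem_ofPred_eq]
    rw [h1]
    exact Family.hole n m k' hm a δ u v hk' (by rw [hv', ← hAc]; exact (card_holeMod hh hm hk' hδ hu hv hA).symm) hδ hu hv
  · have h1 : (A : Set (ZMod n)) = {x | x = a ∨ (∃ i : ℕ, 2 ≤ i ∧ i < k ∧ x = a + i * δ) ∨
        x = a + (k + 1) * δ} := by
      ext x
      rw [Finset.mem_coe, hA, Set.mem_ofPred_eq]
    rw [h1]
    exact Family.threeFirst n k a δ h3 hn3 (by obtain ⟨b, hb⟩ := hodd; omega) hv' hδ
  · have h1 : (A : Set (ZMod n)) = {x | (∃ i : ℕ, i + 3 ≤ k ∧ x = a + i * δ) ∨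
        x = a + (k - 1) * δ ∨ x = a + (k + 1) * δ} := by
      ext x
      rw [Finset.mem_coe, hA, Set.mem_ofPred_eq]
    rw [h1]
    exact Family.threeSecond n k a δ h3 hn3 (by obtain ⟨b, hb⟩ := hodd; omega) hv' hδ
  · subst h13
    have h1 : (A : Set (ZMod 13)) = {x | x = a ∨ x = a + δ ∨ x = a + 4 * δ} := by
      ext x
      rw [Finset.mem_coe, hA, Set.mem_ofPred_eq]
    rw [h1]
    exact Family.sporadic a δ h4 hδ

/-- reduction to the quotient -/
lemma family_lift (n h d : ℕ) [NeZero n] (hh : 3 ≤ h) (hdn : d ∣ n) (hdlt : d < n) {A : Finset (ZMod n)}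
    (hA : ns A h ≠ Finset.univ)
    (hc : A.card = v1 n h) (hd : 0 < d)
    (hApre : A = pre (ZMod.castHom hdn (ZMod d)).toAddMonoidHom
      (A.image (ZMod.castHom hdn (ZMod d)).toAddMonoidHom))
    (ih : ∀ B : Finset (ZMod d), B.card = v1 d h → (∃ x, x ∉ ns B h) →
      Family h d (B : Set (ZMod d))) : Family h n (A : Set (ZMod n)) := by
  classical
  have : NeZero d := ⟨hd.ne'⟩
  set f : ZMod n →+ ZMod d := (ZMod.castHom hdn (ZMod d)).toAddMonoidHom with hf
  have hfs : Function.Surjective f := ZMod.castHom_surjective hdn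
  set B := A.image f with hB
  have hnpos : 0 < n := NeZero.pos n
  obtain ⟨t, ht⟩ := hdn
  have hnd : n / d = t := by rw [ht]; exact Nat.mul_div_cancel_left t hd
  have htpos : 0 < t := by
    rcases Nat.eq_zero_or_pos t with h0 | h0
    · rw [h0, mul_zero] at ht; omega
    · exact h0
  have hcard : A.card = B.card * t := by
    have h1 := card_pre hfs B
    rw [← hApre, ZMod.card, ZMod.card] at h1
    have h2 : A.card * d = (B.card * t) * d := by rw [h1, ht]; ring
    exact Nat.eq_of_mul_eq_mul_right hd h2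
  have hBne : ns B h ≠ Finset.univ := by
    intro hcon
    apply hA
    rw [Finset.eq_univ_iff_forall]
    intro x
    -- lift a representation
    have h1 : f x ∈ ns B h := by rw [hcon]; exact Finset.mem_univ _
    rw [mem_ns_iff] at h1
    obtain ⟨g, hg, hgx⟩ := h1
    have h2 : ∀ i, ∃ a ∈ A, f a = g i := fun i => Finset.mem_image.1 (hg i)
    choose b hb hbg using h2
    rw [mem_ns_iff]
    obtain ⟨h', rfl⟩ : ∃ h', h = h' + 1 := ⟨h - 1, by omega⟩
    refine ⟨fun i => b i + (if i = 0 then x - ∑ j, b j else 0), ?_, ?_⟩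
    · intro i
      show b i + (if i = 0 then x - ∑ j, b j else 0) ∈ A
      rw [hApre, mem_pre]
      have h3 : f (x - ∑ j, b j) = 0 := by
        rw [map_sub, map_sum, ← hgx]
        rw [Finset.sum_congr rfl (fun i _ => hbg i), sub_self]
      split_ifs
      · rw [map_add, h3, add_zero]
        exact Finset.mem_image_of_mem f (hb i)
      · rw [add_zero]
        exact Finset.mem_image_of_mem f (hb i)
    · rw [Finset.sum_add_distrib, Finset.sum_ite_eq' Finset.univ (0 : Fin (h' + 1))]
      simp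
  have hBc : B.card = v1 d h := by
    obtain ⟨m, rfl⟩ : ∃ m, h = m + 1 := ⟨h - 1, by omega⟩
    have h1 := card_le_v1 d hBne
    have h2 := v1_mul_le (h := m + 1) hnpos (show d ∣ n from ⟨t, ht⟩)
    rw [hnd, ← hc, hcard] at h2
    have h3 := Nat.le_of_mul_le_mul_right h2 htpos
    omega
  have h1 := ih B hBc (by
    by_contra hcon
    push Not at hcon
    exact hBne (Finset.eq_univ_iff_forall.2 hcon))
  have h2 : (A : Set (ZMod n)) = {x | ZMod.castHom (show d ∣ n from ⟨t, ht⟩) (ZMod d) x
      ∈ (B : Set (ZMod d))} := by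
    ext x
    rw [Finset.mem_coe, Set.mem_ofPred_eq, Finset.mem_coe]
    conv_lhs => rw [hApre]
    rw [mem_pre]
    rfl
  rw [h2]
  exact Family.preimage n d ⟨t, ht⟩ _ hdlt (by rw [hnd, ← hc, hcard, hBc]) h1

/-- the modulus in the quasi-periodic step -/
lemma step_modulus {h k ε k' ε' m t q : ℕ} (hh : 3 ≤ h) (hn : m * t = h * k + ε)
    (ht : t = h * k' + ε') (hk : k = q * t + k') (hε : ε ≤ 1) (hε' : ε' ≤ 1) (hq : h * q < m)
    (htpos : 0 < t) : m = h * q + 1 := by
  obtain ⟨r, hr⟩ := Nat.exists_eq_add_of_lt hq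
  have e1 : m * t = h * q * t + (r + 1) * t := by rw [hr]; ring
  have e2 : h * k = h * q * t + h * k' := by rw [hk]; ring
  have e3 : (r + 1) * t + ε' = t + ε := by omega
  rcases Nat.eq_zero_or_pos r with h0 | h0
  · rw [h0] at hr; omega
  · exfalso
    have e4 : 1 * t ≤ r * t := Nat.mul_le_mul_right _ h0
    have e5 : (r + 1) * t = r * t + t := by ring
    have e6 : t = 1 := by omega
    have e7 : ε' = 0 := by omega
    rw [e6, e7, add_zero] at ht
    have := Nat.eq_one_of_mul_eq_one_right ht.symm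
    omega

/-- **Completeness.** -/
theorem complete (h : ℕ) (hh : 3 ≤ h) : ∀ n : ℕ, 0 < n → ∀ A : Finset (ZMod n),
    A.card = v1 n h → (∃ x, x ∉ ns A h) → Family h n (A : Set (ZMod n)) := by
  intro n
  induction n using Nat.strong_induction_on with
  | _ n ih =>
  intro hn0 A hc hAe
  classical
  have : NeZero n := ⟨hn0.ne'⟩
  have hA : ns A h ≠ Finset.univ := by
    obtain ⟨x, hx⟩ := hAe
    exact fun hcon => hx (by rw [hcon]; exact Finset.mem_univ _)
  rcases Nat.lt_or_ge n 2 with hn1 | hn2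
  · have hn1' : n = 1 := by omega
    subst hn1'
    have h1 : v1 1 h = 0 := by
      unfold v1
      simp
    rw [h1, Finset.card_eq_zero] at hc
    rw [hc, Finset.coe_empty]
    exact Family.empty
  obtain ⟨m, rfl⟩ : ∃ m, h = m + 1 := ⟨h - 1, by omega⟩
  by_cases ht : Tame n (m + 1)
  swap
  · -- a divisor which is not `0, 1`
    unfold Tame at ht
    push Not at ht
    obtain ⟨e, hen, he0, he1⟩ := ht
    obtain ⟨d, hdn, a, δ, hd2, hdv, hδ, hAx⟩ := forward n (by omega) (dens n hen he0 he1) hc hA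
    have h1 : (A : Set (ZMod n)) = {x | ZMod.castHom hdn (ZMod d) x ∈
        {y : ZMod d | ∃ i : ℕ, i ≤ (d - 2) / (m + 1) ∧ y = a + i * δ}} := by
      ext x
      rw [Finset.mem_coe, hAx, Set.mem_ofPred_eq, Set.mem_ofPred_eq]
    rw [h1]
    have hd0 : 0 < d := by omega
    have h2 := v1_mul_le (h := m + 1) hn0 hdn
    have h3 := le_v1 (h := m + 1) (show d ≠ 0 by omega) (dvd_refl d) (by omega)
    rw [Nat.div_self hd0, mul_one] at h3
    have hnd : 0 < n / d := Nat.div_pos (Nat.le_of_dvd hn0 hdn) hd0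
    rw [← hdv] at h2
    have h4 := Nat.le_of_mul_le_mul_right h2 hnd
    have h5 : (d - 2) / (m + 1) + 1 = v1 d (m + 1) := le_antisymm h3 h4
    rcases Nat.lt_or_ge d n with hdlt | hdge
    · exact Family.preimage n d hdn _ hdlt (by rw [← h5]; exact hdv)
        (Family.progression d a δ hd2 h5 hδ)
    · have hdn' : d = n := le_antisymm (Nat.le_of_dvd hn0 hdn) hdge
      subst hdn'
      have h6 := Family.progression d a δ hd2 h5 hδ
      have h7 : {x : ZMod d | ZMod.castHom hdn (ZMod d) x ∈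
          {y : ZMod d | ∃ i : ℕ, i ≤ (d - 2) / (m + 1) ∧ y = a + i * δ}} =
          {y : ZMod d | ∃ i : ℕ, i ≤ (d - 2) / (m + 1) ∧ y = a + i * δ} := by
        ext x
        rw [Set.mem_ofPred_eq]
        simp
      rw [h7]
      exact h6
  obtain ⟨k, ε, hn, hε⟩ := tame_decomp ht
  have hv := v1_tame hh ht hn0 hn hε
  have hck : A.card = k := by omega
  have hk1 : 1 ≤ k := by
    rcases Nat.eq_zero_or_pos k with h0 | h0
    · rw [h0, mul_zero] at hn; omega
    · exact h0
  have hne : A.Nonempty := by rw [← Finset.card_pos]; omega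
  obtain ⟨d, hdn, hd2, hKd, hker, hpre, hcard, hfin⟩ := main_data n hne hA
  set W := ns A (m + 1) with hW
  have hWne : W.Nonempty := ns_nonempty hne _
  set K := stab W with hK
  have hKs : IsSub K := isSub_stab hWne
  rcases Nat.lt_or_ge 1 K.card with hK2 | hK1
  · -- periodic
    have hAK : A = A + K := by
      apply Finset.eq_of_subset_of_card_le (subset_add_sub hKs A)
      rw [hc]
      apply card_le_v1 n
      intro hcon
      apply hA
      -- `(m+1)(A + K) = W`
      have h1 : ∀ j, 1 ≤ j → ns (A + K) j = ns A j + K := by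
        intro j hj
        induction j, hj using Nat.le_induction with
        | base => rw [ns_one, ns_one]
        | succ j hj ih' =>
          rw [ns_succ, ns_succ, ih', add_add_add_comm, sub_add_self hKs]
      rw [h1 (m + 1) (by omega), ← hW, add_stab hWne] at hcon
      exact hcon
    have hdlt : d < n := by
      rw [← hKd]
      have : 1 * d < K.card * d := Nat.mul_lt_mul_of_pos_right hK2 (by omega)
      omega
    refine family_lift n (m + 1) d hh hdn hdlt hA hc (by omega) ?_
      (fun B hB hB' => ih d hdlt (by omega) B hB hB')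
    conv_lhs => rw [hAK, hpre]
  · by_cases hNQ : NQ 0 A
    · exact family_of_shape n (m + 1) k ε hh hn hε hn2 (tame_odd hh ht) hv hck
        (core n (m + 1) k ε hh ht hn hε hn2 hck hA hK1 hNQ)
    · unfold NQ at hNQ
      push Not at hNQ
      obtain ⟨P, hP, hP2, hPn, hPc⟩ := hNQ
      rw [ZMod.card] at hPn
      obtain ⟨m', t, q, hmt, δ, g, B, hm2, hq, hδ, hBc, ⟨x, hx⟩, hAx⟩ :=
        Helper61.FF.quasi_case n (m + 1) k ε hh ht hn hε hck hA hK1 ⟨P, hP, hP2, hPn, by omega⟩
      have htpos : 0 < t := by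
        rcases Nat.eq_zero_or_pos t with h0 | h0
        · rw [h0, mul_zero] at hmt; omega
        · exact h0
      have : NeZero t := ⟨htpos.ne'⟩
      have htn : t < n := by
        rw [← hmt]
        have : 1 * t < m' * t := Nat.mul_lt_mul_of_pos_right (by omega) htpos
        omega
      have h1 := ih t htn htpos B hBc ⟨x, hx⟩
      have h2 : (A : Set (ZMod n)) = {x | (∃ i : ℕ, 1 ≤ i ∧ i ≤ q ∧
          ZMod.castHom (Dvd.intro t hmt) (ZMod m') (x - g) = i * δ) ∨
          ∃ y ∈ (B : Set (ZMod t)), x = g + ((m' * y.val : ℕ) : ZMod n)} := by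
        ext x
        rw [Finset.mem_coe, hAx, Set.mem_ofPred_eq]
        simp only [Finset.mem_coe]
      rw [h2]
      have h3 := card_step hh hmt hq hδ hAx
      -- the modulus is `h q + 1`
      have htt : Tame t (m + 1) := tame_dvd ht (Dvd.intro_left m' hmt)
      obtain ⟨k', ε', hn', hε'⟩ := tame_decomp htt
      have hv' := v1_tame hh htt htpos hn' hε'
      have h4 : k = q * t + k' := by omega
      have h5 : m' = (m + 1) * q + 1 := step_modulus hh (by rw [hmt]; exact hn) hn' h4 hε hε' hq htpos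
      have hq1 : 1 ≤ q := by
        rcases Nat.eq_zero_or_pos q with h0 | h0
        · rw [h0, mul_zero] at h5; omega
        · exact h0
      exact Family.step n m' t q hmt δ g _ h5 hq1 (by rw [← hc, ← hBc]; exact h3.symm) hδ h1

end Pool.Agent.Helper20.FF
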